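import Pool.Agent.helper18.DT.Step
import Pool.Agent.helper18.DQ.Adv

/-!
# The adversary
-/

namespace Pool.Agent.helper18.DT

open Finset Pool.Agent.helper36.DL
open Pool.Agent.helper36.DL2 (levels tgt tgt_relevant mem_levels tgt_isDL)
open Pool.Agent.helper18.DQ (Forces forces_zero Forces.mono)

variable {n : ℕ}

section

variable {a s q N : ℕ} (hq : 1 ≤ q) {vr : (ℕ × ℕ) × ℕ → Fin n}
    (hvr : Set.InjOn vr (levels (3 * q) 1 ×ˢ range N : Finset ((ℕ × ℕ) × ℕ)))
    {β : Fin n → Fin 3} (hβ : ∀ i < 3 * q, ∀ c < N, β (vr ((i, 0), c)) = bl i) (A : Learner n)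
    (hA : ∀ h, IsLocalTree (blockTests β) (2 ^ a) s (A h))

include hq hvr hβ hA

theorem forces_succ {J c v : ℕ} (hc : Forces vr 1 (3 * q) N A J c)
    (hs : c + exc a s q v ≤ v) : Forces vr 1 (3 * q) N A (J + 1) v := by
  intro C h hC hcard
  obtain ⟨C', hC'C, hC'⟩ := Finset.exists_subset_card_eq hcard
  obtain ⟨x, b', hxb, hsmall⟩ := step hq hvr hβ (hC'C.trans hC) (A h) (hA h)
  rw [hC'] at hsmall
  set C'' := C'.filter fun a => tgt (fun j => vr (j, a)) 1 (3 * q) x = b' with hC''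
  have h3 : C''.card + (C'.filter fun a => tgt (fun j => vr (j, a)) 1 (3 * q) x ≠ b').card
      = C'.card := Finset.card_filter_add_card_filter_not _
  obtain ⟨a, ha, xs, hxs⟩ := hc C'' (h ++ [(x, b')])
    ((Finset.filter_subset _ _).trans (hC'C.trans hC)) (by omega)
  rw [hC'', Finset.mem_filter] at ha
  refine ⟨a, hC'C ha.1, x :: xs, ?_⟩
  rw [mistakes, ha.2, if_neg hxb]
  omega

/-- the first bound -/
theorem forces_lin {c0 J0 v : ℕ} (h0 : Forces vr 1 (3 * q) N A J0 c0) (J : ℕ) :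
    c0 + J * exc a s q v ≤ v → Forces vr 1 (3 * q) N A (J0 + J) (c0 + J * exc a s q v) := by
  induction J with
  | zero => intro _; rw [zero_mul, add_zero, add_zero]; exact h0
  | succ J ih =>
    intro h
    have h1 : c0 + (J + 1) * exc a s q v = c0 + J * exc a s q v + exc a s q v := by ring
    refine forces_succ hq hvr hβ A hA (ih (by omega)) ?_
    rw [h1]
    exact Nat.add_le_add_left (exc_mono (by omega)) _

theorem forces_small {v : ℕ} (hv : 1 ≤ v) :
    Forces vr 1 (3 * q) N A ((v - 1) / exc a s q v) v := by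
  have h1 := forces_lin hq hvr hβ A hA (v := v) (forces_zero vr 1 (3 * q) N A)
    ((v - 1) / exc a s q v) (by
      have := Nat.div_mul_le_self (v - 1) (exc a s q v)
      omega)
  rw [zero_add] at h1
  refine h1.mono ?_
  have := Nat.div_mul_le_self (v - 1) (exc a s q v)
  omega

theorem forces_big (b : ℕ) : Forces vr 1 (3 * q) N A ((2 ^ q - 1) / 2 + b * (2 ^ q / 3))
    (2 ^ q * (72 * 2 ^ q * a + 6 + 2 * s) * 2 ^ b) := by
  set P := 2 ^ q with hP
  set K := 72 * P * a + 6 + 2 * s with hK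
  have hP1 : 1 ≤ P := Nat.one_le_two_pow
  have hK1 : 1 ≤ K := by omega
  have hbase : 3 * (Nat.sqrt (2 * P * K * a) + 1) + s ≤ K := by
    set z := Nat.sqrt (2 * P * K * a) with hz
    have h1 : z * z ≤ 2 * P * K * a := Nat.sqrt_le _
    have h2 : (6 * z) * (6 * z) ≤ K * K := by
      calc (6 * z) * (6 * z) = 36 * (z * z) := by ring
        _ ≤ 36 * (2 * P * K * a) := Nat.mul_le_mul_left _ h1
        _ = (72 * P * a) * K := by ring
        _ ≤ K * K := Nat.mul_le_mul_right _ (by omega)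
    have h3 : 6 * z ≤ K := Nat.mul_self_le_mul_self_iff.1 h2
    omega
  have hscale : ∀ x t : ℕ, 1 ≤ t → Nat.sqrt (x * t) + 1 ≤ t * (Nat.sqrt x + 1) := by
    intro x t ht
    have h1 : Nat.sqrt (x * t) < t * (Nat.sqrt x + 1) := by
      rw [Nat.sqrt_lt]
      have h2 : x < (Nat.sqrt x + 1) * (Nat.sqrt x + 1) := Nat.lt_succ_sqrt x
      calc x * t < (Nat.sqrt x + 1) * (Nat.sqrt x + 1) * t := Nat.mul_lt_mul_of_pos_right h2 ht
        _ ≤ (Nat.sqrt x + 1) * (Nat.sqrt x + 1) * t * t := Nat.le_mul_of_pos_right _ ht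
        _ = t * (Nat.sqrt x + 1) * (t * (Nat.sqrt x + 1)) := by ring
    exact h1
  have hexc : ∀ b, exc a s q (P * K * 2 ^ (b + 1)) ≤ 3 * (K * 2 ^ b) := by
    intro b
    have h1 : P * K * 2 ^ (b + 1) / 2 ^ q = K * 2 ^ (b + 1) := by
      rw [← hP, mul_assoc, Nat.mul_div_cancel_left _ hP1]
    have h2 : P * K * 2 ^ (b + 1) * a = 2 * P * K * a * 2 ^ b := by rw [pow_succ]; ring
    have h3 := hscale (2 * P * K * a) (2 ^ b) Nat.one_le_two_pow
    rw [exc, h1, h2]
    have h4 : (3 * (Nat.sqrt (2 * P * K * a) + 1) + s) * 2 ^ b ≤ K * 2 ^ b :=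
      Nat.mul_le_mul_right _ hbase
    have h5 : s ≤ s * 2 ^ b := Nat.le_mul_of_pos_right _ (by positivity)
    have h6 : (3 * (Nat.sqrt (2 * P * K * a) + 1) + s) * 2 ^ b
        = 3 * (2 ^ b * (Nat.sqrt (2 * P * K * a) + 1)) + s * 2 ^ b := by ring
    have h7 : K * 2 ^ (b + 1) = 2 * (K * 2 ^ b) := by rw [pow_succ]; ring
    omega
  induction b with
  | zero =>
    rw [pow_zero, mul_one, zero_mul, add_zero]
    have hexc0 : exc a s q (P * K) ≤ 2 * K := by
      have h1 : P * K / 2 ^ q = K := by rw [← hP, Nat.mul_div_cancel_left _ hP1]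
      rw [exc, h1]
      have h2 : Nat.sqrt (P * K * a) ≤ Nat.sqrt (2 * P * K * a) := by
        refine Nat.sqrt_le_sqrt ?_
        nlinarith [Nat.zero_le (P * K * a)]
      omega
    have h4 : (P - 1) / 2 * 2 ≤ P - 1 := Nat.div_mul_le_self _ _
    have h5 : (P - 1) / 2 * exc a s q (P * K) ≤ (P - 1) * K := by
      calc (P - 1) / 2 * exc a s q (P * K) ≤ (P - 1) / 2 * (2 * K) := Nat.mul_le_mul_left _ hexc0
        _ = ((P - 1) / 2 * 2) * K := by ring
        _ ≤ (P - 1) * K := Nat.mul_le_mul_right _ h4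
    have h6 : (P - 1) * K + K = P * K := by
      rw [← Nat.succ_mul]
      congr 1
      omega
    have h2 := forces_lin hq hvr hβ A hA (v := P * K) (forces_zero vr 1 (3 * q) N A) ((P - 1) / 2)
      (by omega)
    rw [zero_add] at h2
    exact h2.mono (by omega)
  | succ b ih =>
    have h1 : P * K * 2 ^ b + P / 3 * exc a s q (P * K * 2 ^ (b + 1)) ≤ P * K * 2 ^ (b + 1) := by
      have h2 : P / 3 * 3 ≤ P := Nat.div_mul_le_self _ _
      calc P * K * 2 ^ b + P / 3 * exc a s q (P * K * 2 ^ (b + 1))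
          ≤ P * K * 2 ^ b + P / 3 * (3 * (K * 2 ^ b)) :=
            Nat.add_le_add_left (Nat.mul_le_mul_left _ (hexc b)) _
        _ = P * K * 2 ^ b + (P / 3 * 3) * (K * 2 ^ b) := by ring
        _ ≤ P * K * 2 ^ b + P * (K * 2 ^ b) := Nat.add_le_add_left (Nat.mul_le_mul_right _ h2) _
        _ = P * K * 2 ^ (b + 1) := by rw [pow_succ]; ring
    have h4 := (forces_lin hq hvr hβ A hA (v := P * K * 2 ^ (b + 1)) ih (P / 3) h1).mono h1
    have h5 : (P - 1) / 2 + b * (P / 3) + P / 3 = (P - 1) / 2 + (b + 1) * (P / 3) := by ring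
    rw [h5] at h4
    exact h4

end

/-- an injective map into a large set -/
theorem exists_injOn_into {γ : Type*} (U : Finset γ) (V : Finset (Fin n)) (hn : 0 < n)
    (hUV : U.card ≤ V.card) : ∃ f : γ → Fin n, Set.InjOn f U ∧ ∀ u ∈ U, f u ∈ V := by
  classical
  refine ⟨fun b => if hb : b ∈ U then V.equivFin.symm (Fin.castLE hUV (U.equivFin ⟨b, hb⟩))
    else ⟨0, hn⟩, ?_, fun u hu => ?_⟩
  · intro a ha b hb hab
    have ha' : a ∈ U := ha
    have hb' : b ∈ U := hb
    simp only [dif_pos ha', dif_pos hb'] at hab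
    have h1 := (Fin.castLE_injective hUV) (V.equivFin.symm.injective (Subtype.val_injective hab))
    have h2 := U.equivFin.injective h1
    exact congrArg Subtype.val h2
  · simp only [dif_pos hu]
    exact (V.equivFin.symm _).2

/-- the variables of the candidates -/
theorem exists_vr {q N : ℕ} (β : Fin n → Fin 3) (hn : 0 < n)
    (hβ : ∀ p, q * N ≤ {j | β j = p}.ncard) : ∃ vr : (ℕ × ℕ) × ℕ → Fin n,
      Set.InjOn vr (levels (3 * q) 1 ×ˢ range N : Finset ((ℕ × ℕ) × ℕ)) ∧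
      ∀ i < 3 * q, ∀ c < N, β (vr ((i, 0), c)) = bl i := by
  classical
  have hex : ∀ p : Fin 3, ∃ f : (ℕ × ℕ) × ℕ → Fin n,
      Set.InjOn f ((levels (3 * q) 1 ×ˢ range N : Finset ((ℕ × ℕ) × ℕ)).filter
        fun y => bl y.1.1 = p) ∧
      ∀ y ∈ (levels (3 * q) 1 ×ˢ range N : Finset ((ℕ × ℕ) × ℕ)).filter fun y => bl y.1.1 = p,
        f y ∈ Finset.univ.filter fun j => β j = p := by
    intro p
    refine exists_injOn_into _ _ hn ?_
    have h1 : (Finset.univ.filter fun j => β j = p).card = {j | β j = p}.ncard := by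
      rw [Set.ncard_eq_toFinset_card']
      congr 1
      ext j
      simp
    rw [h1]
    refine le_trans ?_ (hβ p)
    have h2 : ((levels (3 * q) 1 ×ˢ range N : Finset ((ℕ × ℕ) × ℕ)).filter
        fun y => bl y.1.1 = p) ⊆ ((range q ×ˢ range N).image
          fun y : ℕ × ℕ => (((3 * y.1 + p, 0), y.2) : (ℕ × ℕ) × ℕ)) := by
      rintro ⟨⟨i, l⟩, c⟩ h
      rw [Finset.mem_filter, Finset.mem_product, mem_levels, Finset.mem_range] at h
      obtain ⟨⟨⟨h3, h4⟩, h5⟩, h6⟩ := h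
      rw [Finset.mem_image]
      have h7 : i % 3 = p := congrArg Fin.val h6
      refine ⟨(i / 3, c), Finset.mem_product.2 ⟨Finset.mem_range.2 ?_, Finset.mem_range.2 h5⟩, ?_⟩
      · show i / 3 < q
        simp only at h3
        omega
      · simp only at h4 ⊢
        have h8 : 3 * (i / 3) + (p : ℕ) = i := by omega
        have h9 : l = 0 := by omega
        rw [h8, h9]
    refine (Finset.card_le_card h2).trans (Finset.card_image_le.trans ?_)
    rw [Finset.card_product, Finset.card_range, Finset.card_range]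
  choose f hf1 hf2 using hex
  refine ⟨fun y => f (bl y.1.1) y, ?_, fun i hi c hc => ?_⟩
  · intro y hy y' hy' he
    simp only at he
    have h1 := hf2 (bl y.1.1) y (Finset.mem_filter.2 ⟨hy, rfl⟩)
    have h2 := hf2 (bl y'.1.1) y' (Finset.mem_filter.2 ⟨hy', rfl⟩)
    rw [Finset.mem_filter] at h1 h2
    have h3 : bl y.1.1 = bl y'.1.1 := by
      rw [← h1.2, ← h2.2, he]
    rw [← h3] at he
    refine hf1 (bl y.1.1) ?_ ?_ he
    · exact Finset.mem_coe.2 (Finset.mem_filter.2 ⟨hy, rfl⟩)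
    · exact Finset.mem_coe.2 (Finset.mem_filter.2 ⟨hy', h3.symm⟩)
  · have h1 := hf2 (bl i) ((i, 0), c) (Finset.mem_filter.2 ⟨Finset.mem_product.2
      ⟨mem_levels.2 ⟨hi, Nat.one_pos⟩, Finset.mem_range.2 hc⟩, rfl⟩)
    exact (Finset.mem_filter.1 h1).2

/-- from forcing to the target -/
theorem of_forces {q N J : ℕ} (hq : 1 ≤ q) (hN : 1 ≤ N) (β : Fin n → Fin 3)
    (hβ : ∀ p, q * N ≤ {j | β j = p}.ncard) (A : Learner n)
    (h : ∀ vr : (ℕ × ℕ) × ℕ → Fin n,
      Set.InjOn vr (levels (3 * q) 1 ×ˢ range N : Finset ((ℕ × ℕ) × ℕ)) →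
      (∀ i < 3 * q, ∀ c < N, β (vr ((i, 0), c)) = bl i) → Forces vr 1 (3 * q) N A J N) :
    ∃ c : Cube n → Bool, IsDecisionList c ∧ (relevant c).ncard ≤ 3 * q ∧
      ∃ xs, J ≤ mistakes A c [] xs := by
  have hn : 0 < n := by
    have h1 : 0 < {j : Fin n | β j = 0}.ncard := (Nat.mul_pos hq hN).trans_le (hβ 0)
    rw [Set.ncard_pos] at h1
    obtain ⟨j, _⟩ := h1
    exact Nat.zero_lt_of_lt j.2
  obtain ⟨vr, hvr, hvr2⟩ := exists_vr β hn hβ
  obtain ⟨a, _, xs, hxs⟩ := h vr hvr hvr2 (range N) [] subset_rfl (by rw [Finset.card_range])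
  have h2 := tgt_relevant (fun j => vr (j, a)) 1 (3 * q)
  rw [mul_one] at h2
  exact ⟨_, tgt_isDL _ _ _, h2, xs, hxs⟩

/-- **decision trees with tests in three blocks**, first bound -/
theorem tree_learner (n q v a s : ℕ) (β : Fin n → Fin 3) (hq : 1 ≤ q) (hv : 1 ≤ v)
    (hβ : ∀ p, q * v ≤ {j | β j = p}.ncard) (A : Learner n)
    (hA : ∀ h, IsLocalTree (blockTests β) (2 ^ a) s (A h)) :
    ∃ c : Cube n → Bool, IsDecisionList c ∧ (relevant c).ncard ≤ 3 * q ∧
      ∃ xs, (v - 1) / (3 * (Nat.sqrt (v * a) + 1) + s + v / 2 ^ q) ≤ mistakes A c [] xs :=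
  of_forces hq hv β hβ A fun _ hvr hvr2 => forces_small hq hvr hvr2 A hA hv

/-- **decision trees with tests in three blocks**, second bound -/
theorem tree_learner_log (n q a s b : ℕ) (β : Fin n → Fin 3) (hq : 1 ≤ q)
    (hβ : ∀ p, q * (2 ^ q * (72 * 2 ^ q * a + 6 + 2 * s) * 2 ^ b) ≤ {j | β j = p}.ncard)
    (A : Learner n) (hA : ∀ h, IsLocalTree (blockTests β) (2 ^ a) s (A h)) :
    ∃ c : Cube n → Bool, IsDecisionList c ∧ (relevant c).ncard ≤ 3 * q ∧
      ∃ xs, (2 ^ q - 1) / 2 + b * (2 ^ q / 3) ≤ mistakes A c [] xs :=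
  of_forces hq (Nat.mul_pos (Nat.mul_pos (by positivity) (by omega)) (by positivity)) β hβ A
    fun _ hvr hvr2 => forces_big hq hvr hvr2 A hA b

end Pool.Agent.helper18.DT
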