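import Mathlib

/-!
# The mean distance from a large set in a product space
-/

namespace Pool.Agent.helper18.DT

open Finset

variable {α : Type*}

/-- the number of the coordinates in which `j` and `j'` differ -/
def hd [DecidableEq α] {v : ℕ} (j j' : Fin v → α) : ℕ := ∑ c, if j c = j' c then 0 else 1

/-- the weight of a point of the product -/
def pw (w : α → ℝ) {v : ℕ} (j : Fin v → α) : ℝ := ∏ c, w (j c)

theorem pw_nonneg {w : α → ℝ} (hw : ∀ i, 0 ≤ w i) {v : ℕ} (j : Fin v → α) : 0 ≤ pw w j :=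
  Finset.prod_nonneg fun c _ => hw (j c)

theorem pw_cons (w : α → ℝ) {v : ℕ} (i : α) (j : Fin v → α) :
    pw w (Fin.cons i j : Fin (v + 1) → α) = w i * pw w j := by
  rw [pw, Fin.prod_univ_succ]
  simp [pw]

variable [Fintype α]

theorem sum_cons {v : ℕ} (f : (Fin (v + 1) → α) → ℝ) :
    ∑ j, f j = ∑ i : α, ∑ j : Fin v → α, f (Fin.cons i j) := by
  rw [← (Fin.consEquiv (fun _ : Fin (v + 1) => α)).sum_comp f, Fintype.sum_prod_type]
  rfl

theorem sum_pw {w : α → ℝ} (hw1 : ∑ i, w i = 1) (v : ℕ) : ∑ j : Fin v → α, pw w j = 1 := by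
  induction v with
  | zero => simp [pw]
  | succ v ih =>
    rw [sum_cons]
    simp only [pw_cons]
    rw [← hw1]
    refine Finset.sum_congr rfl fun i _ => ?_
    rw [← Finset.mul_sum, ih, mul_one]

/-- the mean of a sum -/
theorem sum_pw_sum {w : α → ℝ} (hw1 : ∑ i, w i = 1) (f : α → ℝ) (v : ℕ) :
    ∑ j : Fin v → α, pw w j * ∑ c, f (j c) = v * ∑ i, w i * f i := by
  induction v with
  | zero => simp
  | succ v ih =>
    rw [sum_cons]
    simp only [pw_cons, Fin.sum_univ_succ, Fin.cons_zero, Fin.cons_succ]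
    have h1 : ∀ i, ∑ j : Fin v → α, w i * pw w j * (f i + ∑ c, f (j c))
        = w i * f i + w i * (v * ∑ i, w i * f i) := by
      intro i
      rw [← ih]
      simp only [mul_add, Finset.sum_add_distrib]
      congr 1
      · rw [← Finset.sum_mul, ← Finset.mul_sum, sum_pw hw1, mul_one]
      · rw [Finset.mul_sum]
        exact Finset.sum_congr rfl fun j _ => by ring
    rw [Finset.sum_congr rfl fun i _ => h1 i, Finset.sum_add_distrib, ← Finset.sum_mul, hw1]
    push_cast
    ring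

/-- the weight of a set is determined by the weights of its fibres -/
theorem sum_fibres [DecidableEq α] {v : ℕ} (w : α → ℝ) (𝒜 : Finset (Fin (v + 1) → α)) :
    ∑ j ∈ 𝒜, pw w j = ∑ i : α, w i * ∑ j with Fin.cons i j ∈ 𝒜, pw w j := by
  have h1 : ∑ j ∈ 𝒜, pw w j = ∑ j, if j ∈ 𝒜 then pw w j else 0 := by
    rw [Finset.sum_ite_mem, Finset.univ_inter]
  rw [h1, sum_cons]
  refine Finset.sum_congr rfl fun i _ => ?_
  rw [Finset.mul_sum, Finset.sum_filter]
  exact Finset.sum_congr rfl fun j _ => by rw [pw_cons]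

/-- the exponential moment of the distance from a set -/
theorem blow [DecidableEq α] [Nonempty α] {w : α → ℝ} (hw : ∀ i, 0 ≤ w i) (hw1 : ∑ i, w i = 1)
    {u : ℝ} (hu : 1 ≤ u) (v : ℕ) : ∀ 𝒜 : Finset (Fin v → α), 0 < ∑ j ∈ 𝒜, pw w j →
      ∃ D : (Fin v → α) → ℕ, (∀ j, ∃ j' ∈ 𝒜, hd j j' ≤ D j) ∧
        (∑ j ∈ 𝒜, pw w j) * ∑ j, pw w j * u ^ D j ≤ ((1 + u) ^ 2 / (4 * u)) ^ v := by
  have hu0 : 0 < u := by linarith
  induction v with
  | zero =>
    intro 𝒜 h𝒜
    have hne : 𝒜.Nonempty := by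
      by_contra h
      rw [Finset.not_nonempty_iff_eq_empty] at h
      rw [h, Finset.sum_empty] at h𝒜
      exact lt_irrefl _ h𝒜
    obtain ⟨j', hj'⟩ := hne
    refine ⟨fun _ => 0, fun j => ⟨j', hj', by simp [hd]⟩, ?_⟩
    have h1 : 𝒜 = Finset.univ := by
      ext j
      simp only [Finset.mem_univ, iff_true]
      rw [Subsingleton.elim j j']
      exact hj'
    rw [h1]
    simp [pw]
  | succ v ih =>
    intro 𝒜 h𝒜
    set F : α → Finset (Fin v → α) := fun i => Finset.univ.filter fun j => Fin.cons i j ∈ 𝒜 with hF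
    set m : α → ℝ := fun i => ∑ j ∈ F i, pw w j with hm
    have hm0 : ∀ i, 0 ≤ m i := fun i => Finset.sum_nonneg fun j _ => pw_nonneg hw j
    have hsum : ∑ j ∈ 𝒜, pw w j = ∑ i, w i * m i := sum_fibres w 𝒜
    obtain ⟨i₀, _, hi₀⟩ := Finset.exists_max_image (Finset.univ : Finset α) m
      Finset.univ_nonempty
    have hi₀' : ∀ i, m i ≤ m i₀ := fun i => hi₀ i (Finset.mem_univ i)
    have hpos : 0 < m i₀ := by
      rw [hsum] at h𝒜
      by_contra h
      rw [not_lt] at h
      have h2 : ∑ i, w i * m i ≤ 0 := Finset.sum_nonpos fun i _ =>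
        mul_nonpos_of_nonneg_of_nonpos (hw i) ((hi₀' i).trans h)
      linarith
    set K := ((1 + u) ^ 2 / (4 * u)) ^ v with hK
    have hK0 : 0 ≤ K := by positivity
    have hex : ∀ i, ∃ D : (Fin v → α) → ℕ, (∀ j, ∃ j' ∈ 𝒜, hd (Fin.cons i j : Fin (v + 1) → α) j' ≤ D j) ∧
        ∑ j, pw w j * u ^ D j ≤ K / m i₀ * (1 + u - u * (m i / m i₀)) := by
      intro i
      have hg1 : m i / m i₀ ≤ 1 := (div_le_one hpos).2 (hi₀' i)
      by_cases hi : m i₀ ≤ u * m i
      · have h1 : 0 < m i := by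
          by_contra h
          have h2 : m i = 0 := le_antisymm (not_lt.1 h) (hm0 i)
          rw [h2, mul_zero] at hi
          linarith
        obtain ⟨D, hD1, hD2⟩ := ih (F i) h1
        refine ⟨D, fun j => ?_, ?_⟩
        · obtain ⟨j', hj', hjj⟩ := hD1 j
          refine ⟨Fin.cons i j', (Finset.mem_filter.1 hj').2, ?_⟩
          rw [hd, Fin.sum_univ_succ]
          simpa [hd] using hjj
        · have h2 : ∑ j, pw w j * u ^ D j ≤ K / m i := by
            rw [le_div_iff₀ h1, mul_comm]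
            exact hD2
          refine h2.trans ?_
          set g := m i / m i₀ with hg
          have hg0 : 0 < g := div_pos h1 hpos
          have h3 : K / m i = K / m i₀ * (1 / g) := by
            rw [hg]
            field_simp
          rw [h3]
          refine mul_le_mul_of_nonneg_left ?_ (by positivity)
          rw [div_le_iff₀ hg0]
          have h4 : 1 ≤ u * g := by
            rw [hg, ← mul_div_assoc, le_div_iff₀ hpos, one_mul]
            exact hi
          nlinarith
      · obtain ⟨D, hD1, hD2⟩ := ih (F i₀) hpos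
        refine ⟨fun j => D j + 1, fun j => ?_, ?_⟩
        · obtain ⟨j', hj', hjj⟩ := hD1 j
          refine ⟨Fin.cons i₀ j', (Finset.mem_filter.1 hj').2, ?_⟩
          rw [hd, Fin.sum_univ_succ]
          have h5 : (if (Fin.cons i j : Fin (v + 1) → α) 0 = (Fin.cons i₀ j' : Fin (v + 1) → α) 0
            then 0 else 1) ≤ 1 := by split_ifs <;> omega
          have h6 : ∑ c : Fin v, (if (Fin.cons i j : Fin (v + 1) → α) c.succ
              = (Fin.cons i₀ j' : Fin (v + 1) → α) c.succ then 0 else 1) = hd j j' := by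
            simp [hd]
          show _ ≤ D j + 1
          rw [h6]
          omega
        · have h2 : ∑ j, pw w j * u ^ D j ≤ K / m i₀ := by
            rw [le_div_iff₀ hpos, mul_comm]
            exact hD2
          have h3 : ∑ j, pw w j * u ^ (D j + 1) = u * ∑ j, pw w j * u ^ D j := by
            rw [Finset.mul_sum]
            exact Finset.sum_congr rfl fun j _ => by rw [pow_succ]; ring
          rw [h3]
          have h4 : u * (m i / m i₀) ≤ 1 := by
            rw [← mul_div_assoc, div_le_one hpos]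
            exact (not_le.1 hi).le
          calc u * ∑ j, pw w j * u ^ D j ≤ u * (K / m i₀) :=
                mul_le_mul_of_nonneg_left h2 hu0.le
            _ = K / m i₀ * u := mul_comm _ _
            _ ≤ K / m i₀ * (1 + u - u * (m i / m i₀)) :=
                mul_le_mul_of_nonneg_left (by linarith) (by positivity)
    choose D hD1 hD2 using hex
    refine ⟨fun j => D (j 0) (Fin.tail j), fun j => ?_, ?_⟩
    · have h1 := hD1 (j 0) (Fin.tail j)
      rw [Fin.cons_self_tail] at h1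
      exact h1
    · rw [sum_cons]
      simp only [pw_cons, Fin.cons_zero, Fin.tail_cons]
      have h1 : ∑ i, ∑ j : Fin v → α, w i * pw w j * u ^ D i j
          ≤ ∑ i, w i * (K / m i₀ * (1 + u - u * (m i / m i₀))) := by
        refine Finset.sum_le_sum fun i _ => ?_
        have h2 : ∑ j : Fin v → α, w i * pw w j * u ^ D i j
            = w i * ∑ j, pw w j * u ^ D i j := by
          rw [Finset.mul_sum]
          exact Finset.sum_congr rfl fun j _ => by ring
        rw [h2]
        exact mul_le_mul_of_nonneg_left (hD2 i) (hw i)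
      set G := ∑ i, w i * (m i / m i₀) with hG
      have h2 : ∑ i, w i * (K / m i₀ * (1 + u - u * (m i / m i₀)))
          = K / m i₀ * (1 + u - u * G) := by
        have h3 : ∀ i, w i * (K / m i₀ * (1 + u - u * (m i / m i₀)))
            = K / m i₀ * ((1 + u) * w i - u * (w i * (m i / m i₀))) := fun i => by ring
        rw [Finset.sum_congr rfl fun i _ => h3 i, ← Finset.mul_sum, Finset.sum_sub_distrib,
          ← Finset.mul_sum, ← Finset.mul_sum, hw1, mul_one]
      have h3 : ∑ j ∈ 𝒜, pw w j = m i₀ * G := by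
        rw [hsum, hG, Finset.mul_sum]
        refine Finset.sum_congr rfl fun i _ => ?_
        field_simp
      have h4 : 0 ≤ ∑ j ∈ 𝒜, pw w j := h𝒜.le
      calc (∑ j ∈ 𝒜, pw w j) * ∑ i, ∑ j : Fin v → α, w i * pw w j * u ^ D i j
          ≤ (∑ j ∈ 𝒜, pw w j) * (K / m i₀ * (1 + u - u * G)) :=
            mul_le_mul_of_nonneg_left (h1.trans h2.le) h4
        _ = K * (G * (1 + u - u * G)) := by rw [h3]; field_simp
        _ ≤ K * ((1 + u) ^ 2 / (4 * u)) := by
            refine mul_le_mul_of_nonneg_left ?_ hK0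
            rw [le_div_iff₀ (by positivity)]
            nlinarith [sq_nonneg (1 + u - 2 * u * G)]
        _ = ((1 + u) ^ 2 / (4 * u)) ^ (v + 1) := by rw [hK, ← pow_succ]

/-- **the mean distance from a large set** -/
theorem blow_mean [DecidableEq α] [Nonempty α] {w : α → ℝ} (hw : ∀ i, 0 ≤ w i)
    (hw1 : ∑ i, w i = 1) {v a : ℕ} (𝒜 : Finset (Fin v → α))
    (h𝒜 : 1 ≤ 2 ^ a * ∑ j ∈ 𝒜, pw w j) :
    ∃ D : (Fin v → α) → ℕ, (∀ j, ∃ j' ∈ 𝒜, hd j j' ≤ D j) ∧
      ∑ j, pw w j * D j ≤ Nat.sqrt (v * a) + 1 := by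
  have hpos : 0 < ∑ j ∈ 𝒜, pw w j := by
    by_contra h
    rw [not_lt] at h
    have h1 : (2 : ℝ) ^ a * ∑ j ∈ 𝒜, pw w j ≤ 0 :=
      mul_nonpos_of_nonneg_of_nonpos (by positivity) h
    linarith
  rcases Nat.eq_zero_or_pos v with rfl | hv
  · obtain ⟨D, hD1, _⟩ := blow hw hw1 le_rfl 0 𝒜 hpos
    have hne : 𝒜.Nonempty := by
      by_contra h
      rw [Finset.not_nonempty_iff_eq_empty] at h
      rw [h, Finset.sum_empty] at hpos
      exact lt_irrefl _ hpos
    obtain ⟨j', hj'⟩ := hne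
    refine ⟨fun _ => 0, fun j => ⟨j', hj', by simp [hd]⟩, ?_⟩
    simp
  set R : ℝ := (Nat.sqrt (v * a) : ℝ) + 1 with hR
  have hR0 : 0 < R := by positivity
  have hv0 : (0 : ℝ) < v := Nat.cast_pos.2 hv
  have hRsq : (v : ℝ) * a ≤ R ^ 2 := by
    have h1 : v * a < (Nat.sqrt (v * a) + 1) * (Nat.sqrt (v * a) + 1) := Nat.lt_succ_sqrt _
    have h2 : ((v * a : ℕ) : ℝ) < ((Nat.sqrt (v * a) + 1) * (Nat.sqrt (v * a) + 1) : ℕ) :=
      Nat.cast_lt.2 h1
    push_cast at h2
    rw [hR, sq]
    exact h2.le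
  set l : ℝ := 2 * R / v with hl
  have hl0 : 0 < l := by positivity
  obtain ⟨D, hD1, hD2⟩ := blow hw hw1 (Real.one_le_exp hl0.le) v 𝒜 hpos
  refine ⟨D, hD1, ?_⟩
  -- the exponential moment
  have h1 : ((1 + Real.exp l) ^ 2 / (4 * Real.exp l)) ^ v ≤ Real.exp (l ^ 2 * v / 4) := by
    have h2 : (1 + Real.exp l) ^ 2 / (4 * Real.exp l) = Real.cosh (l / 2) ^ 2 := by
      rw [Real.cosh_eq]
      have h3 : Real.exp l = Real.exp (l / 2) ^ 2 := by
        rw [← Real.exp_nat_mul]
        congr 1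
        push_cast
        ring
      have h4 : Real.exp (-(l / 2)) = (Real.exp (l / 2))⁻¹ := Real.exp_neg _
      rw [h3, h4]
      have h5 : Real.exp (l / 2) ≠ 0 := (Real.exp_pos _).ne'
      field_simp
      ring
    rw [h2]
    have h3 := Real.cosh_le_exp_half_sq (l / 2)
    calc (Real.cosh (l / 2) ^ 2) ^ v ≤ (Real.exp ((l / 2) ^ 2 / 2) ^ 2) ^ v :=
          pow_le_pow_left₀ (by positivity) (pow_le_pow_left₀ (Real.cosh_pos _).le h3 2) v
      _ = Real.exp (l ^ 2 * v / 4) := by
          rw [← pow_mul, ← Real.exp_nat_mul]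
          congr 1
          push_cast
          ring
  set y : ℝ := a + l ^ 2 * v / 4 with hy
  have h2 : ∑ j, pw w j * Real.exp l ^ D j ≤ Real.exp y := by
    have h3 : (∑ j ∈ 𝒜, pw w j) * ∑ j, pw w j * Real.exp l ^ D j ≤ Real.exp (l ^ 2 * v / 4) :=
      hD2.trans h1
    have h4 : (2 : ℝ) ^ a ≤ Real.exp a := by
      rw [← Real.exp_one_pow]
      exact pow_le_pow_left₀ (by norm_num) (by
        have := Real.add_one_le_exp (1 : ℝ)
        linarith) a
    have h5 : 0 ≤ ∑ j, pw w j * Real.exp l ^ D j :=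
      Finset.sum_nonneg fun j _ => mul_nonneg (pw_nonneg hw j) (by positivity)
    calc ∑ j, pw w j * Real.exp l ^ D j
        ≤ (2 ^ a * ∑ j ∈ 𝒜, pw w j) * ∑ j, pw w j * Real.exp l ^ D j :=
          le_mul_of_one_le_left h5 h𝒜
      _ = 2 ^ a * ((∑ j ∈ 𝒜, pw w j) * ∑ j, pw w j * Real.exp l ^ D j) := by ring
      _ ≤ Real.exp a * Real.exp (l ^ 2 * v / 4) :=
          mul_le_mul h4 h3 (mul_nonneg hpos.le h5) (Real.exp_pos _).le
      _ = Real.exp y := by rw [hy, Real.exp_add]
  -- Jensen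
  have h3 : ∑ j, pw w j * (l * D j - y + 1) ≤ 1 := by
    calc ∑ j, pw w j * (l * D j - y + 1) ≤ ∑ j, pw w j * (Real.exp l ^ D j / Real.exp y) := by
          refine Finset.sum_le_sum fun j _ => mul_le_mul_of_nonneg_left ?_ (pw_nonneg hw j)
          rw [← Real.exp_nat_mul, ← Real.exp_sub, mul_comm (D j : ℝ) l]
          exact Real.add_one_le_exp _
      _ = (∑ j, pw w j * Real.exp l ^ D j) / Real.exp y := by
          rw [Finset.sum_div]
          exact Finset.sum_congr rfl fun j _ => by ring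
      _ ≤ 1 := (div_le_one (Real.exp_pos _)).2 h2
  have h4 : ∑ j, pw w j * (l * D j - y + 1) = l * (∑ j, pw w j * D j) - y + 1 := by
    have h5 : ∀ j, pw w j * (l * D j - y + 1) = l * (pw w j * D j) + (1 - y) * pw w j :=
      fun j => by ring
    rw [Finset.sum_congr rfl fun j _ => h5 j, Finset.sum_add_distrib, ← Finset.mul_sum,
      ← Finset.mul_sum, sum_pw hw1]
    ring
  rw [h4] at h3
  have h5 : l * (∑ j, pw w j * D j) ≤ y := by linarith
  have h6 : y ≤ l * R := by
    have h7 : l ^ 2 * v / 4 = R ^ 2 / v := by rw [hl]; field_simp; norm_num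
    have h8 : l * R = 2 * R ^ 2 / v := by rw [hl]; ring
    have h9 : (a : ℝ) ≤ R ^ 2 / v := by
      rw [le_div_iff₀ hv0, mul_comm]
      exact hRsq
    rw [hy, h7, h8]
    have : 2 * R ^ 2 / (v : ℝ) = R ^ 2 / v + R ^ 2 / v := by ring
    linarith
  exact le_of_mul_le_mul_left (h5.trans h6) hl0

end Pool.Agent.helper18.DT
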