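import Pool.Agent.helper18.DT.Lemmas

/-!
# Decision trees with monotone tests on a product: large boxes on which they are constant
-/

namespace Pool.Agent.helper18.DT

open Finset

theorem IsTree.pos {X : Type*} {𝒯 : Set (X → Bool)} {M : ℕ} {h : X → Bool}
    (hh : IsTree 𝒯 M h) : 0 < M := by
  induction hh with
  | leaf b => exact Nat.one_pos
  | node _ _ _ ih _ => omega

/-- quantiles -/
theorem quantile {Ω : Type*} (B : Finset Ω) (hB : B.Nonempty) (ν : Ω → ℝ)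
    (hν : ∀ ω, 0 ≤ ν ω) (a : Ω → ℝ) (M N : ℕ) :
    ∃ ω₀ ∈ B, (M : ℝ) * ∑ ω ∈ B, ν ω ≤ (M + N) * ∑ ω ∈ B with a ω₀ ≤ a ω, ν ω ∧
      (N : ℝ) * ∑ ω ∈ B, ν ω ≤ (M + N) * ∑ ω ∈ B with a ω ≤ a ω₀, ν ω := by
  classical
  have hM : (0 : ℝ) ≤ M := Nat.cast_nonneg M
  have hN : (0 : ℝ) ≤ N := Nat.cast_nonneg N
  have hs : 0 ≤ ∑ ω ∈ B, ν ω := Finset.sum_nonneg fun ω _ => hν ω
  set G := B.filter fun ω₀ => (M : ℝ) * ∑ ω ∈ B, ν ω ≤ (M + N) * ∑ ω ∈ B with a ω₀ ≤ a ω, ν ω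
    with hG
  obtain ⟨ωm, hωm, hmin⟩ := B.exists_min_image a hB
  have hGne : G.Nonempty := by
    refine ⟨ωm, Finset.mem_filter.2 ⟨hωm, ?_⟩⟩
    rw [Finset.filter_true_of_mem fun ω hω => hmin ω hω]
    nlinarith
  obtain ⟨ω₀, hω₀, hmax⟩ := G.exists_max_image a hGne
  rw [hG, Finset.mem_filter] at hω₀
  refine ⟨ω₀, hω₀.1, hω₀.2, ?_⟩
  have hsplit : ∑ ω ∈ B with a ω ≤ a ω₀, ν ω + ∑ ω ∈ B with ¬ a ω ≤ a ω₀, ν ω
      = ∑ ω ∈ B, ν ω := Finset.sum_filter_add_sum_filter_not _ _ _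
  by_cases hU : (B.filter fun ω => ¬ a ω ≤ a ω₀).Nonempty
  · obtain ⟨ω', hω', hmin'⟩ := (B.filter fun ω => ¬ a ω ≤ a ω₀).exists_min_image a hU
    rw [Finset.mem_filter, not_le] at hω'
    have h1 : ω' ∉ G := fun h => absurd (hmax ω' h) (not_le.2 hω'.2)
    have h2 : (B.filter fun ω => a ω' ≤ a ω) = B.filter fun ω => ¬ a ω ≤ a ω₀ := by
      ext ω
      rw [Finset.mem_filter, Finset.mem_filter, not_le]
      constructor
      · rintro ⟨h3, h4⟩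
        exact ⟨h3, hω'.2.trans_le h4⟩
      · rintro ⟨h3, h4⟩
        exact ⟨h3, hmin' ω (Finset.mem_filter.2 ⟨h3, not_le.2 h4⟩)⟩
    rw [hG, Finset.mem_filter, h2] at h1
    have h3 : ¬ (M : ℝ) * ∑ ω ∈ B, ν ω ≤ (M + N) * ∑ ω ∈ B with ¬ a ω ≤ a ω₀, ν ω :=
      fun h => h1 ⟨hω'.1, h⟩
    rw [not_le] at h3
    nlinarith
  · rw [Finset.not_nonempty_iff_eq_empty] at hU
    rw [hU, Finset.sum_empty, add_zero] at hsplit
    rw [hsplit]
    nlinarith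

/-- the tests on a product which are monotone in real functions of the coordinates -/
def monoTest {κ : Type*} (Ω : κ → Type*) : Set ((∀ p, Ω p) → Bool) :=
  {T | ∃ a : ∀ p, Ω p → ℝ, ∀ x y : ∀ p, Ω p, (∀ p, a p (x p) ≤ a p (y p)) →
    T x = true → T y = true}

/-- **a decision tree with monotone tests is constant on a large box** -/
theorem box {κ : Type*} {Ω : κ → Type*} (ν : ∀ p, Ω p → ℝ) (hν : ∀ p ω, 0 ≤ ν p ω) {M : ℕ}
    {h : (∀ p, Ω p) → Bool} (hh : IsTree (monoTest Ω) M h) :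
    ∀ B : ∀ p, Finset (Ω p), (∀ p, (B p).Nonempty) → ∃ (A : ∀ p, Finset (Ω p)) (b : Bool),
      (∀ p, A p ⊆ B p) ∧ (∀ p, ∑ ω ∈ B p, ν p ω ≤ M * ∑ ω ∈ A p, ν p ω) ∧
      ∀ x : ∀ p, Ω p, (∀ p, x p ∈ A p) → h x = b := by
  classical
  induction hh with
  | leaf b => exact fun B _ => ⟨B, b, fun p => subset_rfl, fun p => by simp, fun _ _ => rfl⟩
  | @node T g h M N hT hg hh ih1 ih2 =>
    intro B hB
    obtain ⟨a, ha⟩ := hT
    have hM : (0 : ℝ) < M := Nat.cast_pos.2 hg.pos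
    have hN : (0 : ℝ) < N := Nat.cast_pos.2 hh.pos
    choose ω₀ hω₀ h1 h2 using fun p => quantile (B p) (hB p) (ν p) (hν p) (a p) M N
    by_cases hT0 : T ω₀ = true
    · obtain ⟨A, b, hA1, hA2, hA3⟩ := ih1 (fun p => (B p).filter fun ω => a p (ω₀ p) ≤ a p ω)
        (fun p => ⟨ω₀ p, Finset.mem_filter.2 ⟨hω₀ p, le_rfl⟩⟩)
      refine ⟨A, b, fun p => (hA1 p).trans (Finset.filter_subset _ _), fun p => ?_, fun x hx => ?_⟩
      · have h3 := hA2 p
        have h4 := h1 p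
        have h5 : (M : ℝ) * ∑ ω ∈ B p, ν p ω ≤ M * ((M + N) * ∑ ω ∈ A p, ν p ω) := by
          calc (M : ℝ) * ∑ ω ∈ B p, ν p ω ≤ (M + N) * (M * ∑ ω ∈ A p, ν p ω) :=
                h4.trans (mul_le_mul_of_nonneg_left h3 (by positivity))
            _ = M * ((M + N) * ∑ ω ∈ A p, ν p ω) := by ring
        push_cast
        exact le_of_mul_le_mul_left h5 hM
      · have h3 : T x = true := ha ω₀ x (fun p => (Finset.mem_filter.1 (hA1 p (hx p))).2) hT0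
        simp only [h3, if_true]
        exact hA3 x hx
    · obtain ⟨A, b, hA1, hA2, hA3⟩ := ih2 (fun p => (B p).filter fun ω => a p ω ≤ a p (ω₀ p))
        (fun p => ⟨ω₀ p, Finset.mem_filter.2 ⟨hω₀ p, le_rfl⟩⟩)
      refine ⟨A, b, fun p => (hA1 p).trans (Finset.filter_subset _ _), fun p => ?_, fun x hx => ?_⟩
      · have h3 := hA2 p
        have h4 := h2 p
        have h5 : (N : ℝ) * ∑ ω ∈ B p, ν p ω ≤ N * ((M + N) * ∑ ω ∈ A p, ν p ω) := by
          calc (N : ℝ) * ∑ ω ∈ B p, ν p ω ≤ (M + N) * (N * ∑ ω ∈ A p, ν p ω) :=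
                h4.trans (mul_le_mul_of_nonneg_left h3 (by positivity))
            _ = N * ((M + N) * ∑ ω ∈ A p, ν p ω) := by ring
        push_cast
        exact le_of_mul_le_mul_left h5 hN
      · have h3 : ¬ T x = true := fun h => hT0 (ha x ω₀
          (fun p => (Finset.mem_filter.1 (hA1 p (hx p))).2) h)
        simp only [if_neg h3]
        exact hA3 x hx

end Pool.Agent.helper18.DT
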