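import Pool.Agent.helper18.DT.Box
import Pool.Agent.helper18.DT.Blow

/-!
# Two families of patterns with the same marginals cannot be told apart by a small tree
-/

namespace Pool.Agent.helper18.DT

open Finset

variable {α γ : Type*} [Fintype α] [DecidableEq α] [DecidableEq γ]

theorem sum_push (w : α → ℝ) (f : α → γ) {v : ℕ} (A : Finset (Fin v → γ)) :
    ∑ j : Fin v → α with (fun c => f (j c)) ∈ A, pw w j
      = ∑ ω ∈ A, ∑ j : Fin v → α with (fun c => f (j c)) = ω, pw w j := by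
  rw [← Finset.sum_fiberwise_of_maps_to (t := A) (g := fun j : Fin v → α => fun c => f (j c))
    (fun j hj => (Finset.mem_filter.1 hj).2)]
  refine Finset.sum_congr rfl fun ω hω => ?_
  rw [Finset.filter_filter]
  refine Finset.sum_congr (Finset.filter_congr fun j _ => ?_) fun _ _ => rfl
  constructor
  · rintro ⟨_, h⟩
    exact h
  · intro h
    exact ⟨by rw [h]; exact hω, h⟩

theorem sum_fibre (w : α → ℝ) (f : α → γ) {v : ℕ} (ω : Fin v → γ) :
    ∑ j : Fin v → α with (fun c => f (j c)) = ω, pw w j = ∏ c, ∑ i with f i = ω c, w i := by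
  rw [Finset.prod_univ_sum]
  refine Finset.sum_congr ?_ fun _ _ => rfl
  ext j
  rw [Finset.mem_filter, Fintype.mem_piFinset, funext_iff]
  simp

theorem push_eq {w w' : α → ℝ} (f : α → γ)
    (h : ∀ σ, ∑ i with f i = σ, w i = ∑ i with f i = σ, w' i) {v : ℕ} (A : Finset (Fin v → γ)) :
    ∑ j : Fin v → α with (fun c => f (j c)) ∈ A, pw w j
      = ∑ j : Fin v → α with (fun c => f (j c)) ∈ A, pw w' j := by
  rw [sum_push, sum_push]
  refine Finset.sum_congr rfl fun ω _ => ?_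
  rw [sum_fibre, sum_fibre]
  exact Finset.prod_congr rfl fun c _ => h (ω c)

/-- a value is at most the mean -/
theorem exists_le_mean {w : α → ℝ} (hw : ∀ i, 0 ≤ w i) (hw1 : ∑ i, w i = 1) {v : ℕ}
    (F : (Fin v → α) → ℝ) : ∃ j, F j ≤ ∑ j, pw w j * F j := by
  by_contra h
  push Not at h
  have h1 : ∑ j : Fin v → α, pw w j = 1 := sum_pw hw1 v
  set E := ∑ j, pw w j * F j with hE
  have h2 : ∃ j : Fin v → α, 0 < pw w j := by
    by_contra h3
    push Not at h3
    have h4 : ∑ j : Fin v → α, pw w j ≤ 0 := Finset.sum_nonpos fun j _ => h3 j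
    linarith
  obtain ⟨j₀, hj₀⟩ := h2
  have h3 : ∑ j : Fin v → α, pw w j * E < ∑ j, pw w j * F j :=
    Finset.sum_lt_sum (fun j _ => mul_le_mul_of_nonneg_left (h j).le (pw_nonneg hw j))
      ⟨j₀, Finset.mem_univ _, mul_lt_mul_of_pos_left (h j₀) hj₀⟩
  rw [← Finset.sum_mul, h1, one_mul, ← hE] at h3
  exact lt_irrefl _ h3

/-- **the core** -/
theorem core {κ : Type*} [Fintype κ] [Nonempty α] (con : κ → α → γ) (w : Bool → α → ℝ)
    (hw : ∀ b i, 0 ≤ w b i) (hw1 : ∀ b, ∑ i, w b i = 1)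
    (hmar : ∀ p σ, ∑ i with con p i = σ, w true i = ∑ i with con p i = σ, w false i)
    (bad : Bool → α → ℝ) (v a : ℕ) {h : (κ → Fin v → γ) → Bool} {M : ℕ} (hM : M ≤ 2 ^ a)
    (hh : IsTree (monoTest fun _ : κ => Fin v → γ) M h) :
    ∃ b₀ : Bool, ∀ b, ∃ (j : Fin v → α) (x : κ → Fin v → γ), h x = b₀ ∧
      (∑ p, (hd (fun c => con p (j c)) (x p) : ℝ)) + ∑ c, bad b (j c)
        ≤ Fintype.card κ * (Nat.sqrt (v * a) + 1) + v * ∑ i, w b i * bad b i := by
  set ν : κ → (Fin v → γ) → ℝ := fun p ω =>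
    ∑ j : Fin v → α with (fun c => con p (j c)) = ω, pw (w true) j with hν
  have hν0 : ∀ p ω, 0 ≤ ν p ω := fun p ω => Finset.sum_nonneg fun j _ => pw_nonneg (hw true) j
  set B : κ → Finset (Fin v → γ) := fun p =>
    Finset.univ.image fun (j : Fin v → α) c => con p (j c) with hB
  have hBne : ∀ p, (B p).Nonempty := fun p => Finset.univ_nonempty.image _
  have hB1 : ∀ p, ∑ ω ∈ B p, ν p ω = 1 := by
    intro p
    rw [hν]
    simp only
    rw [← sum_push, Finset.filter_true_of_mem fun j _ =>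
      Finset.mem_image.2 ⟨j, Finset.mem_univ _, rfl⟩]
    exact sum_pw (hw1 true) v
  obtain ⟨A, b₀, _, hA2, hA3⟩ := box ν hν0 hh B hBne
  refine ⟨b₀, fun b => ?_⟩
  set 𝒜 : κ → Finset (Fin v → α) := fun p =>
    Finset.univ.filter fun j => (fun c => con p (j c)) ∈ A p with h𝒜
  have hmass : ∀ p, 1 ≤ 2 ^ a * ∑ j ∈ 𝒜 p, pw (w b) j := by
    intro p
    have h1 := hA2 p
    rw [hB1 p, hν] at h1
    simp only at h1
    rw [← sum_push] at h1
    have h2 : ∑ j ∈ 𝒜 p, pw (w b) j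
        = ∑ j : Fin v → α with (fun c => con p (j c)) ∈ A p, pw (w true) j := by
      cases b
      · exact (push_eq (con p) (hmar p) (A p)).symm
      · rfl
    rw [h2]
    refine h1.trans (mul_le_mul_of_nonneg_right ?_
      (Finset.sum_nonneg fun j _ => pw_nonneg (hw true) j))
    exact_mod_cast hM
  choose D hD1 hD2 using fun p => blow_mean (hw b) (hw1 b) (𝒜 p) (hmass p)
  obtain ⟨j, hj⟩ := exists_le_mean (hw b) (hw1 b) fun j : Fin v → α =>
    (∑ p, (D p j : ℝ)) + ∑ c, bad b (j c)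
  choose j' hj'1 hj'2 using fun p => hD1 p j
  refine ⟨j, fun p c => con p (j' p c), hA3 _ fun p => (Finset.mem_filter.1 (hj'1 p)).2, ?_⟩
  have h1 : ∑ p, (hd (fun c => con p (j c)) (fun c => con p (j' p c)) : ℝ)
      ≤ ∑ p, (D p j : ℝ) := by
    refine Finset.sum_le_sum fun p _ => ?_
    have h2 : hd (fun c => con p (j c)) (fun c => con p (j' p c)) ≤ hd j (j' p) := by
      refine Finset.sum_le_sum fun c _ => ?_
      by_cases h3 : j c = j' p c
      · simp [h3]
      · rw [if_neg h3]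
        split_ifs <;> omega
    exact_mod_cast h2.trans (hj'2 p)
  have h2 : ∑ j : Fin v → α, pw (w b) j * ((∑ p, (D p j : ℝ)) + ∑ c, bad b (j c))
      = ∑ p, ∑ j : Fin v → α, pw (w b) j * D p j + v * ∑ i, w b i * bad b i := by
    rw [← sum_pw_sum (hw1 b), Finset.sum_comm, ← Finset.sum_add_distrib]
    refine Finset.sum_congr rfl fun j _ => ?_
    rw [mul_add, Finset.mul_sum]
  have h3 : ∑ p, ∑ j : Fin v → α, pw (w b) j * D p j
      ≤ Fintype.card κ * (Nat.sqrt (v * a) + 1) := by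
    calc ∑ p, ∑ j : Fin v → α, pw (w b) j * D p j
        ≤ ∑ _p : κ, ((Nat.sqrt (v * a) : ℝ) + 1) := Finset.sum_le_sum fun p _ => hD2 p
      _ = Fintype.card κ * (Nat.sqrt (v * a) + 1) := by
        rw [Finset.sum_const, Finset.card_univ, nsmul_eq_mul]
  rw [h2] at hj
  linarith

end Pool.Agent.helper18.DT
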