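import Pool.Agent.helper36.DL.Model

/-!
# The number of decision lists with few relevant variables
-/

namespace Pool.Agent.helper18.DT

open Finset Pool.Agent.helper36.DL

variable {n : ℕ}

/-- substituting a value in a decision list -/
theorem exists_subst (j : Fin n) (t : Bool) (l : List (Fin n × Bool × Bool)) (b : Bool) :
    ∃ l' b', l'.length ≤ l.length ∧ ∀ x, evalDL l' b' x = evalDL l b (Function.update x j t) := by
  induction l with
  | nil => exact ⟨[], b, le_rfl, fun x => rfl⟩
  | cons p l ih =>
    obtain ⟨i, s, o⟩ := p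
    obtain ⟨l', b', h1, h2⟩ := ih
    by_cases hij : i = j
    · by_cases hts : t = s
      · refine ⟨[], o, Nat.zero_le _, fun x => ?_⟩
        rw [evalDL, evalDL, hij, Function.update_self, if_pos hts]
      · refine ⟨l', b', h1.trans (Nat.le_succ _), fun x => ?_⟩
        rw [h2, evalDL, hij, Function.update_self, if_neg hts]
    · refine ⟨(i, s, o) :: l', b', Nat.succ_le_succ h1, fun x => ?_⟩
      rw [evalDL, evalDL, Function.update_of_ne hij, h2]

/-- a decision list can be written with different relevant variables -/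
theorem exists_reduced (N : ℕ) : ∀ (l : List (Fin n × Bool × Bool)) (b : Bool), l.length ≤ N →
    ∃ l' b', (∀ x, evalDL l' b' x = evalDL l b x) ∧ (l'.map Prod.fst).Nodup ∧
      ∀ p ∈ l', p.1 ∈ relevant (evalDL l b) := by
  induction N with
  | zero =>
    intro l b hl
    rw [List.length_eq_zero_iff.1 (Nat.le_zero.1 hl)]
    exact ⟨[], b, fun x => rfl, List.nodup_nil, fun p hp => absurd hp List.not_mem_nil⟩
  | succ N ih =>
    intro l b hl
    rcases l with _ | ⟨⟨j, s, o⟩, l⟩
    · exact ⟨[], b, fun x => rfl, List.nodup_nil, fun p hp => absurd hp List.not_mem_nil⟩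
    obtain ⟨l1, b1, h1, h2⟩ := exists_subst j (!s) l b
    obtain ⟨l2, b2, h3, h4, h5⟩ := ih l1 b1 (h1.trans (Nat.le_of_succ_le_succ hl))
    have hg : ∀ x, evalDL l2 b2 x = evalDL l b (Function.update x j (!s)) := fun x => by
      rw [h3, h2]
    have hgj : ∀ x t, evalDL l2 b2 (Function.update x j t) = evalDL l2 b2 x := by
      intro x t
      rw [hg, hg, Function.update_idem]
    have hrel : relevant (evalDL l1 b1) = relevant (evalDL l2 b2) := by
      rw [show evalDL l1 b1 = evalDL l2 b2 from funext fun x => (h3 x).symm]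
    have hjn : j ∉ l2.map Prod.fst := by
      intro h
      rw [List.mem_map] at h
      obtain ⟨p, hp, rfl⟩ := h
      have h6 := h5 p hp
      rw [hrel] at h6
      obtain ⟨x, hx⟩ := h6
      exact hx (hgj x _)
    have hf1 : ∀ x, x j = s → evalDL ((j, s, o) :: l) b x = o := fun x hx => by
      rw [evalDL, if_pos hx]
    have hf2 : ∀ x, x j ≠ s → evalDL ((j, s, o) :: l) b x = evalDL l2 b2 x := fun x hx => by
      rw [evalDL, if_neg hx, hg]
      congr 1
      have h6 : x j = !s := by
        cases h7 : x j <;> cases s <;> simp_all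
      rw [← h6, Function.update_eq_self]
    have hmem : ∀ p ∈ l2, p.1 ∈ relevant (evalDL ((j, s, o) :: l) b) := by
      intro p hp
      have h6 := h5 p hp
      rw [hrel] at h6
      obtain ⟨x, hx⟩ := h6
      have hpj : p.1 ≠ j := fun h => hjn (h ▸ List.mem_map_of_mem hp)
      refine ⟨Function.update x j (!s), ?_⟩
      have hns : Function.update x j (!s) j ≠ s := by
        rw [Function.update_self]
        cases s <;> simp
      have h7 : Function.update (Function.update x j (!s)) p.1
          (!(Function.update x j (!s) p.1)) = Function.update (Function.update x p.1 (!(x p.1)))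
            j (!s) := by
        rw [Function.update_of_ne hpj, Function.update_comm hpj]
      rw [h7, hf2 _ hns, hf2 _ (by rw [Function.update_self]; cases s <;> simp), hgj, hgj]
      exact hx
    by_cases hj : j ∈ relevant (evalDL ((j, s, o) :: l) b)
    · refine ⟨(j, s, o) :: l2, b2, fun x => ?_, ?_, ?_⟩
      · by_cases hx : x j = s
        · rw [hf1 x hx, evalDL, if_pos hx]
        · rw [hf2 x hx, evalDL, if_neg hx]
      · rw [List.map_cons, List.nodup_cons]
        exact ⟨hjn, h4⟩
      · intro p hp
        rcases List.mem_cons.1 hp with rfl | hp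
        · exact hj
        · exact hmem p hp
    · refine ⟨l2, b2, fun x => ?_, h4, hmem⟩
      by_cases hx : x j = s
      · have h6 : evalDL ((j, s, o) :: l) b (Function.update x j (!(x j)))
            = evalDL ((j, s, o) :: l) b x := by
          by_contra h
          exact hj ⟨x, h⟩
        rw [← h6, hf2 _ (by rw [Function.update_self, hx]; cases s <;> simp), hgj]
      · exact (hf2 x hx).symm

/-- the functions computed by decision lists with at most `k` rules -/
def FF (n : ℕ) : ℕ → Finset (Cube n → Bool)
  | 0 => {fun _ => true, fun _ => false}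
  | k + 1 => FF n k ∪ ((univ : Finset (Fin n × Bool × Bool)) ×ˢ FF n k).image
      fun p => fun x => if x p.1.1 = p.1.2.1 then p.1.2.2 else p.2 x

theorem card_FF (n k : ℕ) : (FF n k).card ≤ 2 * (4 * n + 1) ^ k := by
  induction k with
  | zero =>
    rw [pow_zero, mul_one]
    exact Finset.card_le_two
  | succ k ih =>
    rw [FF]
    refine (Finset.card_union_le _ _).trans ?_
    have h1 : (((univ : Finset (Fin n × Bool × Bool)) ×ˢ FF n k).image
        fun p => fun x : Cube n => if x p.1.1 = p.1.2.1 then p.1.2.2 else p.2 x).card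
        ≤ 4 * n * (FF n k).card := by
      refine Finset.card_image_le.trans ?_
      rw [Finset.card_product, Finset.card_univ, Fintype.card_prod, Fintype.card_prod,
        Fintype.card_fin, Fintype.card_bool]
      exact le_of_eq (by ring)
    calc (FF n k).card + _ ≤ (FF n k).card + 4 * n * (FF n k).card := Nat.add_le_add_left h1 _
      _ = (4 * n + 1) * (FF n k).card := by ring
      _ ≤ (4 * n + 1) * (2 * (4 * n + 1) ^ k) := Nat.mul_le_mul_left _ ih
      _ = 2 * (4 * n + 1) ^ (k + 1) := by rw [pow_succ]; ring

theorem mem_FF (l : List (Fin n × Bool × Bool)) (b : Bool) :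
    ∀ k, l.length ≤ k → evalDL l b ∈ FF n k := by
  have h0 : ∀ k, (evalDL [] b : Cube n → Bool) ∈ FF n k := by
    intro k
    induction k with
    | zero =>
      rw [FF, Finset.mem_insert, Finset.mem_singleton]
      cases b
      · right; rfl
      · left; rfl
    | succ k ih => rw [FF]; exact Finset.mem_union_left _ ih
  induction l with
  | nil => exact fun k _ => h0 k
  | cons p l ih =>
    intro k hk
    rcases k with _ | k
    · exact absurd hk (by simp)
    · rw [FF]
      refine Finset.mem_union_right _ (Finset.mem_image.2 ⟨(p, evalDL l b), ?_, ?_⟩)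
      · exact Finset.mem_product.2 ⟨Finset.mem_univ _, ih k (Nat.le_of_succ_le_succ hk)⟩
      · rfl

theorem exists_of_mem_FF {k : ℕ} : ∀ {f : Cube n → Bool}, f ∈ FF n k →
    ∃ l b, l.length ≤ k ∧ ∀ x, f x = evalDL l b x := by
  induction k with
  | zero =>
    intro f hf
    rw [FF, Finset.mem_insert, Finset.mem_singleton] at hf
    rcases hf with rfl | rfl
    · exact ⟨[], true, le_rfl, fun x => rfl⟩
    · exact ⟨[], false, le_rfl, fun x => rfl⟩
  | succ k ih =>
    intro f hf
    rw [FF, Finset.mem_union, Finset.mem_image] at hf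
    rcases hf with hf | ⟨p, hp, rfl⟩
    · obtain ⟨l, b, h1, h2⟩ := ih hf
      exact ⟨l, b, h1.trans (Nat.le_succ k), h2⟩
    · obtain ⟨l, b, h1, h2⟩ := ih (Finset.mem_product.1 hp).2
      refine ⟨p.1 :: l, b, Nat.succ_le_succ h1, fun x => ?_⟩
      beta_reduce
      rw [h2]
      rfl

theorem isDL_of_mem_FF {k : ℕ} {f : Cube n → Bool} (hf : f ∈ FF n k) : IsDecisionList f := by
  obtain ⟨l, b, _, h⟩ := exists_of_mem_FF hf
  exact ⟨l, b, h⟩

theorem mem_FF_of_relevant {f : Cube n → Bool} (hf : IsDecisionList f) {r : ℕ}
    (hr : (relevant f).ncard ≤ r) : f ∈ FF n r := by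
  classical
  obtain ⟨l, b, h⟩ := hf
  have hfe : f = evalDL l b := funext h
  rw [hfe] at hr ⊢
  obtain ⟨l', b', h1, h2, h3⟩ := exists_reduced l.length l b le_rfl
  rw [← show evalDL l' b' = evalDL l b from funext h1]
  refine mem_FF l' b' r (le_trans ?_ hr)
  rw [← List.length_map Prod.fst, ← List.toFinset_card_of_nodup h2, ← Set.ncard_coe_finset]
  refine Set.ncard_le_ncard ?_ (Set.toFinite _)
  intro j hj
  rw [Finset.mem_coe, List.mem_toFinset, List.mem_map] at hj
  obtain ⟨p, hp, rfl⟩ := hj
  exact h3 p hp

end Pool.Agent.helper18.DT
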