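import Pool.Agent.helper36.DL.Model

/-!
# Decision trees and networks of halfspaces, and tests in blocks of variables
-/

namespace Pool.Agent.helper18.DT

open Pool.Agent.helper36.DL

/-- `h` is computed by a decision tree with `M` leaves whose inner nodes contain tests from `𝒯` -/
inductive IsTree {X : Type*} (𝒯 : Set (X → Bool)) : ℕ → (X → Bool) → Prop
  | leaf (b : Bool) : IsTree 𝒯 1 fun _ => b
  | node {T g h : X → Bool} {M N : ℕ} (hT : T ∈ 𝒯) (hg : IsTree 𝒯 M g) (hh : IsTree 𝒯 N h) :
      IsTree 𝒯 (M + N) fun x => if T x = true then g x else h x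

variable {n : ℕ}

/-- on a subcube given by fixed values of at most `s` variables, `h` is computed by a decision tree
with at most `M` leaves and tests from `𝒯` -/
def IsLocalTree (𝒯 : Set (Cube n → Bool)) (M s : ℕ) (h : Cube n → Bool) : Prop :=
  ∃ (S : Finset (Fin n)) (u : Cube n) (N : ℕ) (g : Cube n → Bool), S.card ≤ s ∧ N ≤ M ∧
    IsTree 𝒯 N g ∧ ∀ x, (∀ j ∈ S, x j = u j) → h x = g x

/-- the tests which are monotone in `k` real numbers `g 0 x, ..., g (k - 1) x`, where `g p x` is
an arbitrary function of the variables in the block `p`; the block of the variable `j` is `β j` -/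
def blockTests {k : ℕ} (β : Fin n → Fin k) : Set (Cube n → Bool) :=
  {T | ∃ g : Fin k → Cube n → ℝ, (∀ p x y, (∀ j, β j = p → x j = y j) → g p x = g p y) ∧
    ∀ x y, (∀ p, g p x ≤ g p y) → T x = true → T y = true}

/-- the halfspaces -/
def halfspaces (n : ℕ) : Set (Cube n → Bool) :=
  {T | ∃ (w : Fin n → ℝ) (θ : ℝ), ∀ x, T x = true ↔ θ < ∑ j, if x j = true then w j else 0}

/-- the value of the decision list with the rules `l` (a test and an output) and the default
value `b` -/
def evalTests : List ((Cube n → Bool) × Bool) → Bool → Cube n → Bool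
  | [], b, _ => b
  | (T, o) :: l, b, x => if T x = true then o else evalTests l b x

/-- `IsNet N U h`: the function `h` of `N` real inputs is computed by a feedforward network with `U`
units. A unit gets an affine function `z` of the inputs and of the outputs of all earlier units,
and outputs `α * z + β` if `0 < z` and `γ * z + δ` otherwise (rectified linear units, threshold
gates and absolute values are of this kind); the network accepts iff an affine function of the
inputs and of the outputs of all units is positive. -/
inductive IsNet : (N : ℕ) → ℕ → ((Fin N → ℝ) → Bool) → Prop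
  | out {N : ℕ} (w : Fin N → ℝ) (θ : ℝ) : IsNet N 0 fun y => decide (0 < ∑ i, w i * y i + θ)
  | unit {N U : ℕ} (w : Fin N → ℝ) (θ α β γ δ : ℝ) {g : (Fin (N + 1) → ℝ) → Bool}
      (hg : IsNet (N + 1) U g) : IsNet N (U + 1) fun y =>
        g (Fin.snoc y (if 0 < ∑ i, w i * y i + θ then α * (∑ i, w i * y i + θ) + β
          else γ * (∑ i, w i * y i + θ) + δ))

/-- the values 0 and 1 -/
def val (x : Cube n) (j : Fin n) : ℝ := if x j = true then 1 else 0

/-- The learners `A n r` make at most `C * (r + 1) ^ C * (log n + 1) ^ C` mistakes on the decision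
lists over `n` variables with at most `r` relevant ones, for some `C`. -/
def FewMistakes (A : ∀ n : ℕ, ℕ → Learner n) : Prop :=
  ∃ C : ℕ, ∀ (n r : ℕ) (c : Cube n → Bool), IsDecisionList c → (relevant c).ncard ≤ r →
    ∀ xs : List (Cube n), mistakes (A n r) c [] xs ≤ C * (r + 1) ^ C * (Nat.log 2 n + 1) ^ C

end Pool.Agent.helper18.DT
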