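import Pool.Agent.helper18.DT.Adv
import Pool.Agent.helper18.DQ.Final

/-!
# No attribute-efficient mistake bound
-/

namespace Pool.Agent.helper18.DT

open Filter Pool.Agent.helper36.DL
open Pool.Agent.helper18.DQ (eventually_pow_le)

theorem not_polyBound (α s : ℕ → ℕ → ℕ) (β : ∀ n : ℕ, ℕ → Fin n → Fin 3) (K a b n₀ : ℕ)
    (hab : a < b) (hα : ∀ n ≥ n₀, ∀ r, (α n r + s n r) ^ b ≤ n ^ a)
    (hβ : ∀ n ≥ n₀, ∀ r p, n ≤ K * {j | β n r j = p}.ncard) (A : ∀ n : ℕ, ℕ → Learner n)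
    (hA : ∀ n r h, IsLocalTree (blockTests (β n r)) (2 ^ α n r) (s n r) (A n r h)) :
    ¬ FewMistakes A := by
  rintro ⟨C, hC⟩
  obtain ⟨L, hL1, hL2, hL3⟩ := ((eventually_pow_le (2 * C + 1)
    (9 * (C + 1) * K * (3 * (2 * b + 1)) ^ (2 * C + 1))).and
    ((eventually_ge_atTop 1).and (eventually_ge_atTop n₀))).exists
  set k := 2 * b * L with hk
  set n := 2 ^ k with hn
  set r := 3 * k with hr
  have hb1 : 1 ≤ b := by omega
  have hk1 : 1 ≤ k := Nat.mul_pos (by omega) hL2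
  have hLk : L ≤ k := by rw [hk]; exact Nat.le_mul_of_pos_left _ (by omega)
  have hnn0 : n₀ ≤ n := hL3.trans (hLk.trans Nat.lt_two_pow_self.le)
  have hn1 : 1 ≤ n := Nat.one_le_two_pow
  have hK1 : 1 ≤ K := by
    rcases Nat.eq_zero_or_pos K with h | h
    · have h1 := hβ n hnn0 r 0
      rw [h, zero_mul] at h1
      omega
    · exact h
  have hXle : α n r + s n r ≤ 2 ^ (2 * a * L) := by
    have h1 := hα n hnn0 r
    have h2 : n ^ a = (2 ^ (2 * a * L)) ^ b := by
      rw [hn, hk, ← pow_mul, ← pow_mul]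
      congr 1
      ring
    rw [h2] at h1
    exact (Nat.pow_le_pow_iff_left (by omega)).1 h1
  set Y := 2 ^ ((2 * b - 1) * L) with hY
  have hY1 : 1 ≤ Y := Nat.one_le_two_pow
  have hYn : Y * 2 ^ L = n := by
    rw [hY, hn, hk, ← pow_add]
    congr 1
    have h1 : 2 * b = (2 * b - 1) + 1 := by omega
    conv_rhs => rw [h1]
    ring
  set v := n / (K * k) with hv
  set B := C * (r + 1) ^ C * (Nat.log 2 n + 1) ^ C with hB
  -- the main inequality
  have hmain : (9 * (B + 1) * Y) * (K * k) ≤ n := by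
    have hlog : Nat.log 2 n = k := by rw [hn]; exact Nat.log_pow (by norm_num) k
    have h1 : B + 1 ≤ (C + 1) * (3 * (k + 1)) ^ (2 * C) := by
      rw [hB, hlog, hr]
      have h2 : (3 * k + 1) ^ C ≤ (3 * (k + 1)) ^ C := Nat.pow_le_pow_left (by omega) C
      have h3 : (k + 1) ^ C ≤ (3 * (k + 1)) ^ C := Nat.pow_le_pow_left (by omega) C
      have h4 : 1 ≤ (3 * (k + 1)) ^ (2 * C) := Nat.one_le_pow _ _ (by omega)
      calc C * (3 * k + 1) ^ C * (k + 1) ^ C + 1
          ≤ C * (3 * (k + 1)) ^ C * (3 * (k + 1)) ^ C + (3 * (k + 1)) ^ (2 * C) :=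
            Nat.add_le_add (Nat.mul_le_mul (Nat.mul_le_mul_left _ h2) h3) h4
        _ = (C + 1) * (3 * (k + 1)) ^ (2 * C) := by rw [two_mul C, pow_add]; ring
    have h5 : k ≤ 3 * (k + 1) := by omega
    have h6 : 3 * (k + 1) ≤ 3 * (2 * b + 1) * L := by
      rw [hk]
      nlinarith
    have h7 : 9 * (B + 1) * (K * k) ≤ 2 ^ L := by
      calc 9 * (B + 1) * (K * k)
          ≤ 9 * ((C + 1) * (3 * (k + 1)) ^ (2 * C)) * (K * (3 * (k + 1))) :=
            Nat.mul_le_mul (Nat.mul_le_mul_left _ h1) (Nat.mul_le_mul_left _ h5)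
        _ = 9 * (C + 1) * K * (3 * (k + 1)) ^ (2 * C + 1) := by rw [pow_succ]; ring
        _ ≤ 9 * (C + 1) * K * (3 * (2 * b + 1) * L) ^ (2 * C + 1) :=
            Nat.mul_le_mul_left _ (Nat.pow_le_pow_left h6 _)
        _ = 9 * (C + 1) * K * (3 * (2 * b + 1)) ^ (2 * C + 1) * L ^ (2 * C + 1) := by
            rw [mul_pow (3 * (2 * b + 1)) L]; ring
        _ ≤ 2 ^ L := hL1
    calc (9 * (B + 1) * Y) * (K * k) = Y * (9 * (B + 1) * (K * k)) := by ring
      _ ≤ Y * 2 ^ L := Nat.mul_le_mul_left _ h7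
      _ = n := hYn
  have hKk : 0 < K * k := Nat.mul_pos hK1 hk1
  have hv1 : 9 * (B + 1) * Y ≤ v := (Nat.le_div_iff_mul_le hKk).2 hmain
  have hv0 : 1 ≤ v := by
    have : 1 ≤ 9 * (B + 1) * Y := Nat.mul_pos (Nat.mul_pos (by norm_num) (Nat.succ_pos _)) hY1
    omega
  have hvn : v ≤ n := Nat.div_le_self _ _
  obtain ⟨c, hc, hrel, xs, hxs⟩ := tree_learner n k v (α n r) (s n r) (β n r) hk1 hv0
    (fun p => by
      have h1 : v * (K * k) ≤ n := Nat.div_mul_le_self _ _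
      have h2 := h1.trans (hβ n hnn0 r p)
      have h3 : K * (k * v) ≤ K * {j | β n r j = p}.ncard := by
        calc K * (k * v) = v * (K * k) := by ring
          _ ≤ _ := h2
      exact Nat.le_of_mul_le_mul_left h3 hK1) (A n r) (hA n r)
  have hup := hC n r c hc hrel xs
  rw [← hB] at hup
  have hsq : Nat.sqrt (v * α n r) ≤ Y := by
    have h1 : v * α n r ≤ Y * Y := by
      have h2 : α n r ≤ 2 ^ (2 * a * L) := by omega
      calc v * α n r ≤ n * 2 ^ (2 * a * L) := Nat.mul_le_mul hvn h2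
        _ = 2 ^ (2 * b * L + 2 * a * L) := by rw [hn, hk, ← pow_add]
        _ ≤ 2 ^ ((2 * b - 1) * L + (2 * b - 1) * L) := by
            refine Nat.pow_le_pow_right (by norm_num) ?_
            have h3 : 2 * b + 2 * a ≤ (2 * b - 1) + (2 * b - 1) := by omega
            calc 2 * b * L + 2 * a * L = (2 * b + 2 * a) * L := by ring
              _ ≤ ((2 * b - 1) + (2 * b - 1)) * L := Nat.mul_le_mul_right _ h3
              _ = _ := by ring
        _ = Y * Y := by rw [hY, ← pow_add]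
    calc Nat.sqrt (v * α n r) ≤ Nat.sqrt (Y * Y) := Nat.sqrt_le_sqrt h1
      _ = Y := Nat.sqrt_eq Y
  have hsY : s n r ≤ Y := by
    have h1 : 2 ^ (2 * a * L) ≤ Y :=
      Nat.pow_le_pow_right (by norm_num) (Nat.mul_le_mul_right _ (by omega))
    omega
  have hvq : v / 2 ^ k ≤ 1 := by
    calc v / 2 ^ k ≤ n / 2 ^ k := Nat.div_le_div_right hvn
      _ = 1 := by rw [hn]; exact Nat.div_self (by positivity)
  set E := 3 * (Nat.sqrt (v * α n r) + 1) + s n r + v / 2 ^ k with hE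
  have hE0 : 1 ≤ E := by
    have h1 : 0 ≤ v / 2 ^ k := Nat.zero_le _
    omega
  have hE2 : E ≤ 8 * Y := by omega
  have h1 : B + 1 ≤ (v - 1) / E := by
    rw [Nat.le_div_iff_mul_le hE0]
    have h2 : (B + 1) * E ≤ (B + 1) * (8 * Y) := Nat.mul_le_mul_left _ hE2
    have h3 : (B + 1) * (8 * Y) + (B + 1) * Y = 9 * (B + 1) * Y := by ring
    have h4 : 1 ≤ (B + 1) * Y := Nat.mul_pos (Nat.succ_pos _) hY1
    omega
  omega

/-- the blocks `j % 3` -/
def mod3 (n : ℕ) (j : Fin n) : Fin 3 := ⟨j.1 % 3, Nat.mod_lt _ (by norm_num)⟩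

theorem card_mod3 (n : ℕ) (p : Fin 3) : n / 3 ≤ {j | mod3 n j = p}.ncard := by
  have h1 : ∀ i : Fin (n / 3), 3 * i.1 + p.1 < n := by
    intro i
    have := i.2
    have := p.2
    omega
  have h2 : Function.Injective fun i : Fin (n / 3) => (⟨3 * i.1 + p.1, h1 i⟩ : Fin n) := by
    intro i i' h
    have := congrArg Fin.val h
    simp only at this
    exact Fin.ext (by omega)
  have h3 : Set.range (fun i : Fin (n / 3) => (⟨3 * i.1 + p.1, h1 i⟩ : Fin n))
      ⊆ {j | mod3 n j = p} := by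
    rintro _ ⟨i, rfl⟩
    show mod3 n _ = p
    rw [mod3]
    refine Fin.ext ?_
    simp only
    have := p.2
    omega
  calc n / 3 = (Set.range fun i : Fin (n / 3) => (⟨3 * i.1 + p.1, h1 i⟩ : Fin n)).ncard := by
        rw [← Set.image_univ, Set.ncard_image_of_injective _ h2, Set.ncard_univ,
          Nat.card_eq_fintype_card, Fintype.card_fin]
    _ ≤ _ := Set.ncard_le_ncard h3

theorem not_polyBound_halfspaces (α s : ℕ → ℕ → ℕ) (a b n₀ : ℕ) (hab : a < b)
    (hα : ∀ n ≥ n₀, ∀ r, (α n r + s n r) ^ b ≤ n ^ a) (A : ∀ n : ℕ, ℕ → Learner n)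
    (hA : ∀ n r h, IsLocalTree (halfspaces n) (2 ^ α n r) (s n r) (A n r h)) :
    ¬ FewMistakes A :=
  not_polyBound α s (fun n _ => mod3 n) 4 a b (n₀ + 6) hab
    (fun n hn r => hα n (by omega) r)
    (fun n hn r p => by
      have := card_mod3 n p
      omega) A (fun n r h => (hA n r h).mono (halfspaces_subset _))

end Pool.Agent.helper18.DT
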