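import Pool.Agent.helper18.DT.Net

/-!
# A vote of halfspaces is a network
-/

namespace Pool.Agent.helper18.DT

open Finset Pool.Agent.helper36.DL

/-- networks with one layer of threshold gates -/
theorem isNet_layer (k : ℕ) : ∀ (N : ℕ) (w : Fin k → Fin N → ℝ) (θ a : Fin k → ℝ)
    (u : Fin N → ℝ) (θ₀ : ℝ), IsNet N k fun y => decide (0 < ∑ i, u i * y i
      + (∑ i, a i * (if 0 < ∑ j, w i j * y j + θ i then 1 else 0) + θ₀)) := by
  induction k with
  | zero =>
    intro N w θ a u θ₀
    have h := IsNet.out u θ₀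
    simpa using h
  | succ k ih =>
    intro N w θ a u θ₀
    have h := IsNet.unit (w 0) (θ 0) 0 1 0 0 (ih (N + 1)
      (fun i => Fin.snoc (w i.succ) 0) (fun i => θ i.succ) (fun i => a i.succ)
      (Fin.snoc u (a 0)) θ₀)
    have h1 : ∀ (y : Fin N → ℝ) (s : ℝ),
        ∑ i : Fin (N + 1), (Fin.snoc u (a 0) : Fin (N + 1) → ℝ) i
          * (Fin.snoc y s : Fin (N + 1) → ℝ) i = ∑ i, u i * y i + a 0 * s := by
      intro y s
      rw [Fin.sum_univ_castSucc]
      simp
    have h2 : ∀ (i : Fin k) (y : Fin N → ℝ) (s : ℝ),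
        ∑ j : Fin (N + 1), (Fin.snoc (w i.succ) 0 : Fin (N + 1) → ℝ) j
          * (Fin.snoc y s : Fin (N + 1) → ℝ) j = ∑ j, w i.succ j * y j := by
      intro i y s
      rw [Fin.sum_univ_castSucc]
      simp
    simp only [h1, h2, zero_mul, zero_add] at h
    have h3 : (fun y : Fin N → ℝ => decide (0 < ∑ i, u i * y i
        + (∑ i, a i * (if 0 < ∑ j, w i j * y j + θ i then 1 else 0) + θ₀)))
        = fun y => decide (0 < ∑ i, u i * y i
          + a 0 * (if 0 < ∑ j, w 0 j * y j + θ 0 then 1 else 0)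
          + (∑ i : Fin k, a i.succ * (if 0 < ∑ j, w i.succ j * y j + θ i.succ then 1 else 0)
            + θ₀)) := by
      funext y
      rw [Fin.sum_univ_succ]
      congr 2
      ring
    rw [h3]
    exact h

/-- the vote of `k` halfspaces -/
theorem isNet_vote {n k : ℕ} (T : Fin k → Cube n → Bool)
    (hT : ∀ i, ∃ f, IsAffine f ∧ ∀ x, T i x = true ↔ 0 < f x) :
    ∃ H, IsNet n k H ∧ ∀ x, decide (k < 2 * (univ.filter fun i => T i x = true).card)
      = H (val x) := by
  choose f hf hTf using hT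
  choose w θ hw using hf
  refine ⟨_, isNet_layer k n w θ (fun _ => 2) 0 (-k), fun x => ?_⟩
  have h1 : ∑ i, (2 : ℝ) * (if 0 < ∑ j, w i j * val x j + θ i then 1 else 0)
      = 2 * ((univ.filter fun i => T i x = true).card : ℝ) := by
    rw [← Finset.mul_sum]
    congr 1
    rw [Finset.card_filter]
    push_cast
    refine Finset.sum_congr rfl fun i _ => ?_
    have h2 : T i x = true ↔ 0 < ∑ j, w i j * val x j + θ i := by rw [hTf, hw]
    simp only [h2]
  have h2 : ∑ i, (0 : Fin n → ℝ) i * val x i = 0 := by simp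
  rw [h1, h2]
  refine decide_eq_decide.2 ?_
  rw [zero_add]
  constructor
  · intro h3
    have h4 : ((k : ℕ) : ℝ) < ((2 * (univ.filter fun i => T i x = true).card : ℕ) : ℝ) :=
      Nat.cast_lt.2 h3
    push_cast at h4
    linarith
  · intro h3
    have h4 : ((k : ℕ) : ℝ) < ((2 * (univ.filter fun i => T i x = true).card : ℕ) : ℝ) := by
      push_cast
      linarith
    exact Nat.cast_lt.1 h4

theorem IsAffine.add {n : ℕ} {f g : Cube n → ℝ} (hf : IsAffine f) (hg : IsAffine g) :
    IsAffine fun x => f x + g x := by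
  obtain ⟨w, θ, h⟩ := hf
  obtain ⟨w', θ', h'⟩ := hg
  refine ⟨fun j => w j + w' j, θ + θ', fun x => ?_⟩
  beta_reduce
  rw [h x, h' x]
  have h1 : ∑ j, (w j + w' j) * val x j = ∑ j, w j * val x j + ∑ j, w' j * val x j := by
    rw [← Finset.sum_add_distrib]
    exact Finset.sum_congr rfl fun j _ => by ring
  rw [h1]
  ring

/-- a decision list is a halfspace, with a margin -/
theorem dl_affine {n : ℕ} (l : List (Fin n × Bool × Bool)) (b : Bool) :
    ∃ (f : Cube n → ℝ) (B : ℝ), IsAffine f ∧ 0 ≤ B ∧ ∀ x, |f x| ≤ B ∧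
      (evalDL l b x = true → 1 ≤ f x) ∧ (evalDL l b x = false → f x ≤ -1) := by
  induction l with
  | nil =>
    refine ⟨fun _ => if b = true then 1 else -1, 1, ⟨fun _ => 0, _, fun x => by simp; rfl⟩,
      zero_le_one, fun x => ?_⟩
    cases b <;> simp [evalDL]
  | cons p l ih =>
    obtain ⟨j, s, o⟩ := p
    obtain ⟨f, B, hf, hB, h⟩ := ih
    set lit : Cube n → ℝ := fun x => if x j = s then 1 else 0 with hlit
    have hl : IsAffine lit := by
      cases s
      · have h1 : lit = fun x => (-1) * val x j + 1 := by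
          funext x
          rw [hlit, val]
          cases hx : x j <;> simp [hx]
        rw [h1]
        exact (isAffine_val j).mul_add _ _
      · have h1 : lit = fun x => val x j := by
          funext x
          rw [hlit, val]
        rw [h1]
        exact isAffine_val j
    set σ : ℝ := if o = true then 1 else -1 with hσ
    refine ⟨fun x => f x + ((B + 1) * σ * lit x + 0), 2 * B + 1,
      hf.add (hl.mul_add _ _), by linarith, fun x => ?_⟩
    obtain ⟨h1, h2, h3⟩ := h x
    rw [abs_le] at h1 ⊢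
    rw [evalDL]
    beta_reduce
    by_cases hx : x j = s
    · have h4 : lit x = 1 := by rw [hlit]; exact if_pos hx
      rw [if_pos hx, h4]
      cases o
      · have h5 : σ = -1 := by rw [hσ]; simp
        rw [h5]
        refine ⟨⟨by linarith, by linarith⟩, by simp, fun _ => by linarith⟩
      · have h5 : σ = 1 := by rw [hσ]; simp
        rw [h5]
        refine ⟨⟨by linarith, by linarith⟩, fun _ => by linarith, by simp⟩
    · have h4 : lit x = 0 := by rw [hlit]; exact if_neg hx
      rw [if_neg hx, h4, mul_zero, add_zero, add_zero]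
      exact ⟨⟨by linarith [h1.1], by linarith [h1.2]⟩, h2, h3⟩

theorem dl_halfspace {n : ℕ} {f : Cube n → Bool} (hf : IsDecisionList f) :
    ∃ g, IsAffine g ∧ ∀ x, f x = true ↔ 0 < g x := by
  obtain ⟨l, b, h⟩ := hf
  obtain ⟨g, B, hg, _, h1⟩ := dl_affine l b
  refine ⟨g, hg, fun x => ?_⟩
  rw [h x]
  obtain ⟨_, h2, h3⟩ := h1 x
  cases hx : evalDL l b x
  · have := h3 hx
    simp only [Bool.false_eq_true, false_iff, not_lt]
    linarith
  · have := h2 hx
    simp only [true_iff]
    linarith

end Pool.Agent.helper18.DT
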