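import Pool.Agent.helper18.DT.Count
import Pool.Agent.helper18.DT.Vote

/-!
# Halving with a vote of `n + 1` sampled lists
-/

namespace Pool.Agent.helper18.DT

open Finset Pool.Agent.helper36.DL

variable {n : ℕ}

/-- **sampling** -/
theorem sample (V : Finset (Cube n → Bool)) (hV : V.Nonempty) :
    ∃ t : Fin (n + 1) → Cube n → Bool, (∀ i, t i ∈ V) ∧ ∀ x b,
      16 * (V.filter fun f => f x ≠ b).card ≤ V.card →
        2 * (univ.filter fun i => t i x ≠ b).card < n + 1 := by
  classical
  set bx : Cube n → Bool := fun x =>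
    decide (16 * (V.filter fun f => f x ≠ true).card ≤ V.card) with hbx
  set w : Cube n → (Cube n → Bool) → ℝ := fun x f => if f x ≠ bx x then 4 else 1 / 4 with hw
  set G : Finset (Cube n) := univ.filter fun x =>
    16 * (V.filter fun f => f x ≠ bx x).card ≤ V.card with hG
  have hVpos : (0 : ℝ) < V.card := Nat.cast_pos.2 hV.card_pos
  have h1 : ∀ x ∈ G, ∑ f ∈ V, w x f ≤ V.card / 2 := by
    intro x hx
    rw [hG, Finset.mem_filter] at hx
    have h2 : ∑ f ∈ V, w x f = 4 * ((V.filter fun f => f x ≠ bx x).card : ℝ)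
        + 1 / 4 * ((V.filter fun f => ¬ f x ≠ bx x).card : ℝ) := by
      rw [hw]
      simp only
      rw [Finset.sum_ite, Finset.sum_const, Finset.sum_const, nsmul_eq_mul, nsmul_eq_mul]
      ring
    have h3 : ((V.filter fun f => f x ≠ bx x).card : ℝ)
        + ((V.filter fun f => ¬ f x ≠ bx x).card : ℝ) = V.card := by
      exact_mod_cast Finset.card_filter_add_card_filter_not (s := V) fun f => f x ≠ bx x
    have h4 : (16 : ℝ) * ((V.filter fun f => f x ≠ bx x).card : ℝ) ≤ V.card := by
      exact_mod_cast hx.2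
    rw [h2]
    have h5 : (0 : ℝ) ≤ ((V.filter fun f => f x ≠ bx x).card : ℝ) := Nat.cast_nonneg _
    linarith
  have h2 : ∑ t ∈ Fintype.piFinset (fun _ : Fin (n + 1) => V), ∑ x ∈ G, ∏ i, w x (t i)
      < ∑ _t ∈ Fintype.piFinset (fun _ : Fin (n + 1) => V), (1 : ℝ) := by
    rw [Finset.sum_comm]
    have h3 : ∀ x ∈ G, ∑ t ∈ Fintype.piFinset (fun _ : Fin (n + 1) => V), ∏ i, w x (t i)
        ≤ (V.card / 2) ^ (n + 1) := by
      intro x hx
      rw [← Finset.prod_univ_sum (fun _ : Fin (n + 1) => V) (fun _ f => w x f),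
        Finset.prod_const, Finset.card_univ, Fintype.card_fin]
      refine pow_le_pow_left₀ (Finset.sum_nonneg fun f _ => ?_) (h1 x hx) _
      rw [hw]
      simp only
      split_ifs <;> norm_num
    refine (Finset.sum_le_sum h3).trans_lt ?_
    rw [Finset.sum_const, Finset.sum_const, Fintype.card_piFinset, Finset.prod_const,
      Finset.card_univ, Fintype.card_fin, nsmul_eq_mul, nsmul_eq_mul, mul_one]
    have h4 : (G.card : ℝ) ≤ 2 ^ n := by
      have h5 : G.card ≤ 2 ^ n := by
        refine (Finset.card_le_univ G).trans (le_of_eq ?_)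
        rw [Fintype.card_fun, Fintype.card_bool, Fintype.card_fin]
      exact_mod_cast h5
    have h6 : (0 : ℝ) < (V.card : ℝ) ^ (n + 1) := by positivity
    calc (G.card : ℝ) * (V.card / 2) ^ (n + 1)
        ≤ 2 ^ n * (V.card / 2) ^ (n + 1) := mul_le_mul_of_nonneg_right h4 (by positivity)
      _ = (V.card : ℝ) ^ (n + 1) / 2 := by
          rw [div_pow, pow_succ (2 : ℝ) n]
          field_simp
      _ < (V.card : ℝ) ^ (n + 1) := by linarith
      _ = ((V.card ^ (n + 1) : ℕ) : ℝ) := by push_cast; rfl
  obtain ⟨t, ht, ht2⟩ := Finset.exists_lt_of_sum_lt h2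
  rw [Fintype.mem_piFinset] at ht
  refine ⟨t, ht, fun x b hb => ?_⟩
  have hbb : bx x = b := by
    rw [hbx]
    simp only
    cases b
    · rw [decide_eq_false_iff_not]
      intro h5
      have h6 : (V.filter fun f => f x ≠ true).card + (V.filter fun f => f x ≠ false).card
          = V.card := by
        rw [← Finset.card_filter_add_card_filter_not (s := V) fun f => f x ≠ true]
        congr 2
        ext f
        cases f x <;> simp
      have h7 := hV.card_pos
      omega
    · exact decide_eq_true hb
  have hxG : x ∈ G := by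
    rw [hG, Finset.mem_filter]
    exact ⟨Finset.mem_univ _, by rw [hbb]; exact hb⟩
  have hwpos : ∀ y f, 0 < w y f := by
    intro y f
    rw [hw]
    simp only
    split_ifs <;> norm_num
  have h5 : ∏ i, w x (t i) < 1 := by
    refine lt_of_le_of_lt ?_ ht2
    exact Finset.single_le_sum (f := fun x => ∏ i, w x (t i))
      (fun y _ => Finset.prod_nonneg fun i _ => (hwpos y _).le) hxG
  by_contra hcon
  rw [not_lt] at hcon
  have h6 : ∏ i, w x (t i) = 4 ^ (univ.filter fun i => t i x ≠ b).card
      * (1 / 4) ^ (univ.filter fun i => ¬ t i x ≠ b).card := by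
    rw [hw]
    simp only
    rw [hbb, Finset.prod_ite, Finset.prod_const, Finset.prod_const]
  have h7 : (univ.filter fun i : Fin (n + 1) => t i x ≠ b).card
      + (univ.filter fun i : Fin (n + 1) => ¬ t i x ≠ b).card = n + 1 := by
    rw [Finset.card_filter_add_card_filter_not, Finset.card_univ, Fintype.card_fin]
  have h8 : (univ.filter fun i : Fin (n + 1) => ¬ t i x ≠ b).card
      ≤ (univ.filter fun i : Fin (n + 1) => t i x ≠ b).card := by omega
  have h9 : (1 : ℝ) ≤ 4 ^ (univ.filter fun i : Fin (n + 1) => t i x ≠ b).card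
      * (1 / 4) ^ (univ.filter fun i : Fin (n + 1) => ¬ t i x ≠ b).card := by
    rw [one_div, inv_pow, ← div_eq_mul_inv, le_div_iff₀ (by positivity), one_mul]
    exact pow_le_pow_right₀ (by norm_num) h8
  rw [h6] at h5
  linarith

/-- the functions which agree with the history -/
def cons' (V : Finset (Cube n → Bool)) (h : List (Cube n × Bool)) : Finset (Cube n → Bool) :=
  V.filter fun f => ∀ p ∈ h, f p.1 = p.2

/-- the sampled lists -/
noncomputable def smp (V : Finset (Cube n → Bool)) : Fin (n + 1) → Cube n → Bool :=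
  if h : V.Nonempty then (sample V h).choose else fun _ _ => false

/-- the learner -/
noncomputable def voter (V : Finset (Cube n → Bool)) : Learner n := fun h x =>
  decide (n + 1 < 2 * (univ.filter fun i => smp (cons' V h) i x = true).card)

theorem voter_mistakes (V : Finset (Cube n → Bool)) (c : Cube n → Bool) (xs : List (Cube n)) :
    ∀ h, c ∈ cons' V h → ((16 : ℝ) / 15) ^ mistakes (voter V) c h xs ≤ (cons' V h).card := by
  classical
  induction xs with
  | nil =>
    intro h hc
    rw [mistakes, pow_zero]
    exact_mod_cast Finset.card_pos.2 ⟨c, hc⟩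
  | cons x xs ih =>
    intro h hc
    set W := cons' V h with hW
    have hWc : cons' V (h ++ [(x, c x)]) = W.filter fun f => f x = c x := by
      ext f
      rw [hW, cons', cons', Finset.mem_filter, Finset.mem_filter, Finset.mem_filter]
      constructor
      · rintro ⟨h1, h2⟩
        exact ⟨⟨h1, fun p hp => h2 p (List.mem_append_left _ hp)⟩,
          h2 (x, c x) (List.mem_append_right _ List.mem_cons_self)⟩
      · rintro ⟨⟨h1, h2⟩, h3⟩
        refine ⟨h1, fun p hp => ?_⟩
        rcases List.mem_append.1 hp with hp | hp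
        · exact h2 p hp
        · rw [List.mem_singleton.1 hp]
          exact h3
    have hc' : c ∈ cons' V (h ++ [(x, c x)]) := by
      rw [hWc, Finset.mem_filter]
      exact ⟨hc, rfl⟩
    have h1 := ih _ hc'
    rw [hWc] at h1
    have hsplit : (W.filter fun f => f x = c x).card + (W.filter fun f => f x ≠ c x).card
        = W.card := Finset.card_filter_add_card_filter_not _
    rw [mistakes]
    by_cases he : voter V h x = c x
    · rw [if_pos he, zero_add]
      refine h1.trans ?_
      exact_mod_cast Finset.card_filter_le _ _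
    · rw [if_neg he, pow_add, pow_one]
      have hne : W.Nonempty := ⟨c, hc⟩
      have h2 := (sample W hne).choose_spec.2 x (c x)
      have h3 : smp W = (sample W hne).choose := by rw [smp, dif_pos hne]
      rw [← h3] at h2
      have h4 : ¬ 16 * (W.filter fun f => f x ≠ c x).card ≤ W.card := by
        intro h5
        apply he
        have h6 := h2 h5
        rw [voter, ← hW]
        have h7 : (univ.filter fun i : Fin (n + 1) => smp W i x = true).card
            + (univ.filter fun i : Fin (n + 1) => smp W i x ≠ true).card = n + 1 := by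
          refine (Finset.card_filter_add_card_filter_not _).trans ?_
          rw [Finset.card_univ, Fintype.card_fin]
        cases hcx : c x
        · rw [hcx] at h6
          have h8 : (univ.filter fun i : Fin (n + 1) => smp W i x ≠ false)
              = univ.filter fun i : Fin (n + 1) => smp W i x = true := by
            ext i
            cases smp W i x <;> simp
          rw [h8] at h6
          rw [decide_eq_false_iff_not]
          omega
        · rw [hcx] at h6
          rw [decide_eq_true_eq]
          omega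
      rw [not_le] at h4
      have h5 : (16 : ℝ) * ((W.filter fun f => f x = c x).card : ℝ) ≤ 15 * W.card := by
        have h6 : 16 * (W.filter fun f => f x = c x).card ≤ 15 * W.card := by omega
        exact_mod_cast h6
      linarith

/-- the mistake bound -/
theorem voter_bound (n r : ℕ) (c : Cube n → Bool) (hc : IsDecisionList c)
    (hr : (relevant c).ncard ≤ r) (xs : List (Cube n)) :
    mistakes (voter (FF n r)) c [] xs ≤ 55 * (r + 1) * (Nat.log 2 n + 1) := by
  have h1 : c ∈ cons' (FF n r) [] := by
    rw [cons', Finset.mem_filter]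
    exact ⟨mem_FF_of_relevant hc hr, fun p hp => absurd hp List.not_mem_nil⟩
  have h2 := voter_mistakes (FF n r) c xs [] h1
  set M := mistakes (voter (FF n r)) c [] xs with hM
  have h3 : (cons' (FF n r) []).card ≤ 2 * (4 * n + 1) ^ r :=
    (Finset.card_filter_le _ _).trans (card_FF n r)
  set L := Nat.log 2 n with hL
  have h4 : 4 * n + 1 ≤ 2 ^ (L + 3) := by
    have h5 : n < 2 ^ (L + 1) := Nat.lt_pow_succ_log_self (by norm_num) n
    have h6 : 2 ^ (L + 3) = 4 * 2 ^ (L + 1) := by ring
    omega
  have h5 : (2 : ℝ) ^ (M / 11) ≤ 2 ^ (1 + r * (L + 3)) := by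
    calc (2 : ℝ) ^ (M / 11) ≤ (((16 : ℝ) / 15) ^ 11) ^ (M / 11) :=
          pow_le_pow_left₀ (by norm_num) (by norm_num) _
      _ = ((16 : ℝ) / 15) ^ (11 * (M / 11)) := by rw [← pow_mul]
      _ ≤ ((16 : ℝ) / 15) ^ M := pow_le_pow_right₀ (by norm_num) (Nat.mul_div_le M 11)
      _ ≤ ((cons' (FF n r) []).card : ℝ) := h2
      _ ≤ ((2 * (4 * n + 1) ^ r : ℕ) : ℝ) := Nat.cast_le.2 h3
      _ ≤ ((2 * (2 ^ (L + 3)) ^ r : ℕ) : ℝ) :=
          Nat.cast_le.2 (Nat.mul_le_mul_left _ (Nat.pow_le_pow_left h4 r))
      _ = 2 ^ (1 + r * (L + 3)) := by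
          push_cast
          rw [← pow_mul, pow_add, pow_one, mul_comm (L + 3) r]
  have h6 : M / 11 ≤ 1 + r * (L + 3) := (pow_le_pow_iff_right₀ (by norm_num)).1 h5
  have h7 : M < 11 * (M / 11 + 1) := by omega
  have h8 : 11 * (M / 11 + 1) ≤ 11 * (2 + r * (L + 3)) := by omega
  have h9 : 11 * (2 + r * (L + 3)) ≤ 55 * (r + 1) * (L + 1) := by
    nlinarith [Nat.zero_le (r * L), Nat.zero_le r, Nat.zero_le L]
  omega

/-- the hypotheses are networks with `n + 1` units -/
theorem voter_net (n r : ℕ) (h : List (Cube n × Bool)) :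
    ∃ H, IsNet n (n + 1) H ∧ ∀ x, voter (FF n r) h x = H (val x) := by
  refine isNet_vote (smp (cons' (FF n r) h)) fun i => dl_halfspace ?_
  rw [smp]
  split_ifs with hne
  · have h1 := (sample (cons' (FF n r) h) hne).choose_spec.1 i
    exact isDL_of_mem_FF (Finset.mem_filter.1 h1).1
  · exact ⟨[], false, fun x => rfl⟩

end Pool.Agent.helper18.DT
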