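import Pool.Agent.helper18.DT.Defs

/-!
# Simple facts on decision trees
-/

namespace Pool.Agent.helper18.DT

open Pool.Agent.helper36.DL

variable {n : ℕ}

theorem isTree_list {𝒯 : Set (Cube n → Bool)} (l : List ((Cube n → Bool) × Bool)) (b : Bool)
    (hl : ∀ p ∈ l, p.1 ∈ 𝒯) : IsTree 𝒯 (l.length + 1) (evalTests l b) := by
  induction l with
  | nil => exact IsTree.leaf b
  | cons p l ih =>
    obtain ⟨T, o⟩ := p
    have h1 := IsTree.node (hl (T, o) List.mem_cons_self) (IsTree.leaf o)
      (ih fun p hp => hl p (List.mem_cons_of_mem _ hp))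
    rw [List.length_cons, add_comm (l.length + 1) 1]
    exact h1

theorem isTree_comb {X : Type*} {𝒯 : Set (X → Bool)} (k : ℕ) :
    ∀ (T : Fin k → X → Bool) (F : (Fin k → Bool) → Bool), (∀ i, T i ∈ 𝒯) →
      IsTree 𝒯 (2 ^ k) fun x => F fun i => T i x := by
  induction k with
  | zero =>
    intro T F _
    have h1 : (fun x => F fun i => T i x) = fun _ : X => F Fin.elim0 := by
      funext x
      congr 1
      exact Subsingleton.elim _ _
    rw [h1]
    exact IsTree.leaf _
  | succ k ih =>
    intro T F hT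
    have h1 := IsTree.node (hT 0)
      (ih (fun i => T i.succ) (fun y => F (Fin.cons true y)) fun i => hT _)
      (ih (fun i => T i.succ) (fun y => F (Fin.cons false y)) fun i => hT _)
    have h2 : (fun x => F fun i => T i x) = fun x => if T 0 x = true
        then F (Fin.cons true fun i => T i.succ x) else F (Fin.cons false fun i => T i.succ x) := by
      funext x
      split_ifs with h
      · congr 1
        funext i
        refine Fin.cases ?_ (fun i => ?_) i
        · simpa using h
        · simp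
      · congr 1
        funext i
        refine Fin.cases ?_ (fun i => ?_) i
        · simpa using h
        · simp
    rw [h2, pow_succ, mul_two]
    exact h1

theorem halfspaces_subset {k : ℕ} (β : Fin n → Fin k) : halfspaces n ⊆ blockTests β := by
  rintro T ⟨w, θ, hT⟩
  refine ⟨fun p x => ∑ j with β j = p, if x j = true then w j else 0, fun p x y hxy => ?_,
    fun x y hxy hx => ?_⟩
  · refine Finset.sum_congr rfl fun j hj => ?_
    rw [hxy j (Finset.mem_filter.1 hj).2]
  · have h1 : ∀ x : Cube n, ∑ j, (if x j = true then w j else 0)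
        = ∑ p, ∑ j with β j = p, if x j = true then w j else 0 := fun x =>
      (Finset.sum_fiberwise (s := Finset.univ) (g := β)
        (f := fun j => if x j = true then w j else 0)).symm
    rw [hT, h1] at hx ⊢
    exact hx.trans_le (Finset.sum_le_sum fun p _ => hxy p)

theorem IsTree.comp {X Y : Type*} {𝒯 : Set (X → Bool)} {𝒰 : Set (Y → Bool)} (φ : Y → X)
    (hφ : ∀ T ∈ 𝒯, (fun y => T (φ y)) ∈ 𝒰) {M : ℕ} {h : X → Bool} (hh : IsTree 𝒯 M h) :
    IsTree 𝒰 M fun y => h (φ y) := by
  induction hh with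
  | leaf b => exact IsTree.leaf b
  | node hT _ _ ih1 ih2 => exact IsTree.node (hφ _ hT) ih1 ih2

theorem IsTree.mono {X : Type*} {𝒯 𝒰 : Set (X → Bool)} (h𝒯 : 𝒯 ⊆ 𝒰) {M : ℕ} {h : X → Bool}
    (hh : IsTree 𝒯 M h) : IsTree 𝒰 M h :=
  hh.comp id fun _ hT => h𝒯 hT

theorem IsLocalTree.mono {𝒯 𝒰 : Set (Cube n → Bool)} (h𝒯 : 𝒯 ⊆ 𝒰) {M s : ℕ} {h : Cube n → Bool}
    (hh : IsLocalTree 𝒯 M s h) : IsLocalTree 𝒰 M s h := by
  obtain ⟨S, u, N, g, h1, h2, h3, h4⟩ := hh
  exact ⟨S, u, N, g, h1, h2, h3.mono h𝒯, h4⟩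

end Pool.Agent.helper18.DT
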