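import Pool.Agent.helper18.DT.Count
import Pool.Agent.helper18.DT.Defs

/-!
# Two blocks: one test per hypothesis suffices
-/

namespace Pool.Agent.helper18.DT

open Finset Pool.Agent.helper36.DL

variable {n : ℕ}

/-- a decision list is the sign of a sum of two functions of the two blocks -/
theorem exists_two (β : Fin n → Fin 2) (l : List (Fin n × Bool × Bool)) (b : Bool) :
    ∃ s : Fin 2 → Cube n → ℝ, (∀ p x y, (∀ j, β j = p → x j = y j) → s p x = s p y) ∧
      (∀ p x, |s p x| ≤ l.length + 1) ∧ ∀ x, (evalDL l b x = true → 1 ≤ s 0 x + s 1 x) ∧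
        (evalDL l b x = false → s 0 x + s 1 x ≤ -1) := by
  induction l with
  | nil =>
    refine ⟨fun p _ => if p = 0 then (if b = true then 1 else -1) else 0, fun p x y _ => rfl,
      fun p x => ?_, fun x => ?_⟩
    · fin_cases p <;> cases b <;> simp
    · cases b <;> simp [evalDL]
  | cons q l ih =>
    obtain ⟨j, t, o⟩ := q
    obtain ⟨s, h1, h2, h3⟩ := ih
    set σ : ℝ := if o = true then 1 else -1 with hσ
    set m : ℝ := (l.length : ℝ) with hm
    have hm0 : 0 ≤ m := Nat.cast_nonneg _
    have hσ1 : |σ| = 1 := by rw [hσ]; cases o <;> simp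
    refine ⟨fun p x => if β j = p ∧ x j = t then σ * (m + 2) else s p x, fun p x y hxy => ?_,
      fun p x => ?_, fun x => ?_⟩
    · beta_reduce
      by_cases hp : β j = p
      · rw [hxy j hp, h1 p x y hxy]
      · rw [if_neg (fun h => hp h.1), if_neg (fun h => hp h.1), h1 p x y hxy]
    · beta_reduce
      rw [List.length_cons]
      push_cast
      rw [← hm]
      split_ifs
      · rw [abs_mul, hσ1, abs_of_pos (by linarith)]
        linarith
      · exact (h2 p x).trans (by linarith)
    · beta_reduce
      rw [evalDL]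
      by_cases hx : x j = t
      · rw [if_pos hx]
        have h4 := abs_le.1 (h2 0 x)
        have h5 := abs_le.1 (h2 1 x)
        have h6 : β j = 0 ∨ β j = 1 := by
          rcases Fin.exists_fin_two.1 ⟨β j, rfl⟩ with h | h
          · exact Or.inl h
          · exact Or.inr h
        rcases h6 with h6 | h6
        · rw [if_pos ⟨h6, hx⟩, if_neg (fun h => by rw [h6] at h; exact absurd h.1 (by decide))]
          cases o
          · have h7 : σ = -1 := by rw [hσ]; simp
            rw [h7]
            exact ⟨by simp, fun _ => by linarith [h5.2]⟩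
          · have h7 : σ = 1 := by rw [hσ]; simp
            rw [h7]
            exact ⟨fun _ => by linarith [h5.1], by simp⟩
        · rw [if_neg (fun h => by rw [h6] at h; exact absurd h.1 (by decide)), if_pos ⟨h6, hx⟩]
          cases o
          · have h7 : σ = -1 := by rw [hσ]; simp
            rw [h7]
            exact ⟨by simp, fun _ => by linarith [h4.2]⟩
          · have h7 : σ = 1 := by rw [hσ]; simp
            rw [h7]
            exact ⟨fun _ => by linarith [h4.1], by simp⟩
      · rw [if_neg hx, if_neg (fun h => hx h.2), if_neg (fun h => hx h.2)]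
        exact h3 x

section

variable (F : Finset (Cube n → Bool)) (s : (Cube n → Bool) → Cube n → ℝ) (η : ℝ)

/-- the sign of a label -/
def sg (b : Bool) : ℝ := if b = true then 1 else -1

/-- the weights after a history, starting from the weights `w` -/
noncomputable def wts (w : (Cube n → Bool) → ℝ) (h : List (Cube n × Bool)) :
    (Cube n → Bool) → ℝ :=
  h.foldl (fun w p => if decide (0 < ∑ f ∈ F, w f * s f p.1) = p.2 then w
    else fun f => w f * Real.exp (η * (sg p.2 * s f p.1))) w

/-- the learner with multiplicative weights -/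
noncomputable def mw : Learner n := fun h x =>
  decide (0 < ∑ f ∈ F, wts F s η (fun _ => 1) h f * s f x)

theorem wts_snoc (w : (Cube n → Bool) → ℝ) (h : List (Cube n × Bool)) (p : Cube n × Bool) :
    wts F s η w (h ++ [p]) = if decide (0 < ∑ f ∈ F, wts F s η w h f * s f p.1) = p.2
      then wts F s η w h else fun f => wts F s η w h f * Real.exp (η * (sg p.2 * s f p.1)) := by
  rw [wts, List.foldl_append]
  rfl

theorem wts_pos (h : List (Cube n × Bool)) : ∀ w : (Cube n → Bool) → ℝ, (∀ f, 0 < w f) →
    ∀ f, 0 < wts F s η w h f := by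
  induction h with
  | nil => exact fun w hw f => hw f
  | cons p h ih =>
    intro w hw f
    rw [wts, List.foldl_cons]
    refine ih _ (fun f => ?_) f
    split_ifs
    · exact hw f
    · exact mul_pos (hw f) (Real.exp_pos _)

variable {F s}

theorem mw_mistakes {R : ℝ} (hR : 1 ≤ R) (hs : ∀ f ∈ F, ∀ x, |s f x| ≤ R) {c : Cube n → Bool}
    (hc : c ∈ F) (hsc : ∀ x, 1 ≤ sg (c x) * s c x) (xs : List (Cube n)) :
    ∀ h, wts F s (1 / (2 * R ^ 2)) (fun _ => 1) h c
      * Real.exp (1 / (2 * R ^ 2) * mistakes (mw F s (1 / (2 * R ^ 2))) c h xs)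
      ≤ (∑ f ∈ F, wts F s (1 / (2 * R ^ 2)) (fun _ => 1) h f)
        * Real.exp (1 / (4 * R ^ 2) * mistakes (mw F s (1 / (2 * R ^ 2))) c h xs) := by
  set η := 1 / (2 * R ^ 2) with hη
  have hη0 : 0 < η := by positivity
  have hpos : ∀ h f, 0 < wts F s η (fun _ => 1) h f := fun h f =>
    wts_pos F s η h _ (fun _ => one_pos) f
  induction xs with
  | nil =>
    intro h
    rw [mistakes]
    simp only [Nat.cast_zero, mul_zero, Real.exp_zero, mul_one]
    exact Finset.single_le_sum (f := fun f => wts F s η (fun _ => 1) h f)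
      (fun f _ => (hpos h f).le) hc
  | cons x xs ih =>
    intro h
    have h1 := ih (h ++ [(x, c x)])
    rw [wts_snoc] at h1
    simp only at h1
    rw [mistakes]
    by_cases he : mw F s η h x = c x
    · rw [if_pos he, zero_add]
      rw [mw] at he
      rw [if_pos he] at h1
      exact h1
    · rw [if_neg he]
      have he' := he
      rw [mw] at he'
      rw [if_neg he'] at h1
      set W := wts F s η (fun _ => 1) h with hW
      set M := mistakes (mw F s η) c (h ++ [(x, c x)]) xs with hM
      -- the sum has the wrong sign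
      have h2 : sg (c x) * ∑ f ∈ F, W f * s f x ≤ 0 := by
        cases hcx : c x
        · rw [hcx] at he'
          have h3 : 0 < ∑ f ∈ F, W f * s f x := by simpa using he'
          rw [sg, if_neg (by simp)]
          linarith
        · rw [hcx] at he'
          have h3 : ¬ 0 < ∑ f ∈ F, W f * s f x := by simpa using he'
          rw [sg, if_pos rfl]
          linarith
      have hsg : ∀ b : Bool, sg b ^ 2 = 1 := by
        intro b
        cases b <;> simp [sg]
      have h4 : ∑ f ∈ F, W f * Real.exp (η * (sg (c x) * s f x))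
          ≤ (∑ f ∈ F, W f) * Real.exp (1 / (4 * R ^ 2)) := by
        have h5 : ∀ f ∈ F, W f * Real.exp (η * (sg (c x) * s f x))
            ≤ W f + η * (sg (c x) * (W f * s f x)) + 1 / (4 * R ^ 2) * W f := by
          intro f hf
          set z := η * (sg (c x) * s f x) with hz
          have h6 : z ^ 2 ≤ 1 / (4 * R ^ 2) := by
            have h7 : s f x ^ 2 ≤ R ^ 2 := by
              rw [← sq_abs]
              exact pow_le_pow_left₀ (abs_nonneg _) (hs f hf x) 2
            calc z ^ 2 = η ^ 2 * (sg (c x) ^ 2 * s f x ^ 2) := by rw [hz]; ring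
              _ = η ^ 2 * s f x ^ 2 := by rw [hsg, one_mul]
              _ ≤ η ^ 2 * R ^ 2 := mul_le_mul_of_nonneg_left h7 (by positivity)
              _ = 1 / (4 * R ^ 2) := by
                rw [hη]
                field_simp
                norm_num
          have h8 : |z| ≤ 1 := by
            have h9 : z ^ 2 ≤ 1 := by
              refine h6.trans ?_
              rw [div_le_one (by positivity)]
              nlinarith
            rw [abs_le]
            constructor <;> nlinarith
          have h10 : Real.exp z ≤ 1 + z + z ^ 2 := by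
            have := (abs_le.1 (Real.abs_exp_sub_one_sub_id_le h8)).2
            linarith
          have hWf : 0 < W f := hpos h f
          calc W f * Real.exp z ≤ W f * (1 + z + 1 / (4 * R ^ 2)) :=
                mul_le_mul_of_nonneg_left (by linarith) hWf.le
            _ = W f + η * (sg (c x) * (W f * s f x)) + 1 / (4 * R ^ 2) * W f := by
                rw [hz]; ring
        have h6 : ∑ f ∈ F, (W f + η * (sg (c x) * (W f * s f x)) + 1 / (4 * R ^ 2) * W f)
            = (∑ f ∈ F, W f) * (1 + 1 / (4 * R ^ 2)) + η * (sg (c x) * ∑ f ∈ F, W f * s f x) := by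
          rw [Finset.sum_add_distrib, Finset.sum_add_distrib, ← Finset.mul_sum, ← Finset.mul_sum,
            ← Finset.mul_sum]
          ring
        have h7 : η * (sg (c x) * ∑ f ∈ F, W f * s f x) ≤ 0 :=
          mul_nonpos_of_nonneg_of_nonpos hη0.le h2
        have h8 : 0 ≤ ∑ f ∈ F, W f := Finset.sum_nonneg fun f _ => (hpos h f).le
        have h9 : 1 + 1 / (4 * R ^ 2) ≤ Real.exp (1 / (4 * R ^ 2)) := by
          have := Real.add_one_le_exp (1 / (4 * R ^ 2))
          linarith
        calc ∑ f ∈ F, W f * Real.exp (η * (sg (c x) * s f x))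
            ≤ ∑ f ∈ F, (W f + η * (sg (c x) * (W f * s f x)) + 1 / (4 * R ^ 2) * W f) :=
              Finset.sum_le_sum h5
          _ ≤ (∑ f ∈ F, W f) * (1 + 1 / (4 * R ^ 2)) := by rw [h6]; linarith
          _ ≤ (∑ f ∈ F, W f) * Real.exp (1 / (4 * R ^ 2)) := mul_le_mul_of_nonneg_left h9 h8
      have h5 : W c * Real.exp η ≤ W c * Real.exp (η * (sg (c x) * s c x)) := by
        refine mul_le_mul_of_nonneg_left (Real.exp_le_exp.2 ?_) (hpos h c).le
        exact le_mul_of_one_le_right hη0.le (hsc x)
      push_cast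
      calc W c * Real.exp (η * (1 + M)) = W c * Real.exp η * Real.exp (η * M) := by
            rw [mul_add, mul_one, Real.exp_add]
            ring
        _ ≤ W c * Real.exp (η * (sg (c x) * s c x)) * Real.exp (η * M) :=
            mul_le_mul_of_nonneg_right h5 (Real.exp_pos _).le
        _ ≤ (∑ f ∈ F, W f * Real.exp (η * (sg (c x) * s f x)))
              * Real.exp (1 / (4 * R ^ 2) * M) := h1
        _ ≤ (∑ f ∈ F, W f) * Real.exp (1 / (4 * R ^ 2)) * Real.exp (1 / (4 * R ^ 2) * M) :=
            mul_le_mul_of_nonneg_right h4 (Real.exp_pos _).le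
        _ = (∑ f ∈ F, W f) * Real.exp (1 / (4 * R ^ 2) * (1 + M)) := by
            rw [mul_add, mul_one, Real.exp_add]
            ring

end

/-- **two blocks** -/
theorem two_blocks (β : Fin n → Fin 2) (r : ℕ) : ∃ A : Learner n,
    (∀ h, A h ∈ blockTests β) ∧ ∀ c : Cube n → Bool, IsDecisionList c → (relevant c).ncard ≤ r →
      ∀ xs, mistakes A c [] xs ≤ 48 * (r + 1) ^ 3 * (Nat.log 2 n + 1) := by
  have hex : ∀ f : Cube n → Bool, ∃ s : Fin 2 → Cube n → ℝ,
      (∀ p x y, (∀ j, β j = p → x j = y j) → s p x = s p y) ∧ (f ∈ FF n r →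
      (∀ p x, |s p x| ≤ r + 1) ∧ ∀ x, 1 ≤ sg (f x) * (s 0 x + s 1 x)) := by
    intro f
    by_cases hf : f ∈ FF n r
    · obtain ⟨l, b, h1, h2⟩ := exists_of_mem_FF hf
      obtain ⟨s, h3, h4, h5⟩ := exists_two β l b
      refine ⟨s, h3, fun _ => ⟨fun p x => (h4 p x).trans ?_, fun x => ?_⟩⟩
      · have h6 : (l.length : ℝ) ≤ r := Nat.cast_le.2 h1
        linarith
      · rw [h2 x]
        obtain ⟨h6, h7⟩ := h5 x
        cases hx : evalDL l b x
        · have := h7 hx
          rw [sg, if_neg (by simp)]
          linarith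
        · have := h6 hx
          rw [sg, if_pos rfl]
          linarith
    · exact ⟨fun _ _ => 0, fun _ _ _ _ => rfl, fun h => absurd h hf⟩
  choose s hs1 hs2 using hex
  set R : ℝ := 2 * (r + 1) with hR
  have hR1 : 1 ≤ R := by
    have : (0 : ℝ) ≤ r := Nat.cast_nonneg r
    rw [hR]
    linarith
  set A : Learner n := mw (FF n r) (fun f x => s f 0 x + s f 1 x) (1 / (2 * R ^ 2)) with hA
  refine ⟨A, fun h => ?_, fun c hc hr xs => ?_⟩
  · refine ⟨fun p x => ∑ f ∈ FF n r, wts (FF n r) (fun f x => s f 0 x + s f 1 x)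
      (1 / (2 * R ^ 2)) (fun _ => 1) h f * s f p x, fun p x y hxy => ?_, fun x y hxy hx => ?_⟩
    · exact Finset.sum_congr rfl fun f _ => by rw [hs1 f p x y hxy]
    · rw [hA, mw, decide_eq_true_eq] at hx ⊢
      simp only [mul_add, Finset.sum_add_distrib] at hx ⊢
      exact hx.trans_le (add_le_add (hxy 0) (hxy 1))
  · have hcF := mem_FF_of_relevant hc hr
    have h1 := mw_mistakes (s := fun f x => s f 0 x + s f 1 x) hR1 (fun f hf x => by
      have h2 := (hs2 f hf).1 0 x
      have h3 := (hs2 f hf).1 1 x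
      refine (abs_add_le _ _).trans ?_
      rw [hR]
      linarith) hcF (fun x => (hs2 c hcF).2 x) xs []
    rw [← hA] at h1
    set M := mistakes A c [] xs with hM
    have h2 : ∀ f, wts (FF n r) (fun f x => s f 0 x + s f 1 x) (1 / (2 * R ^ 2)) (fun _ => 1) [] f
        = 1 := fun f => rfl
    simp only [h2, one_mul, Finset.sum_const, nsmul_eq_mul, mul_one] at h1
    set L := Nat.log 2 n with hL
    have h4 : 4 * n + 1 ≤ 2 ^ (L + 3) := by
      have h5 : n < 2 ^ (L + 1) := Nat.lt_pow_succ_log_self (by norm_num) n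
      have h6 : 2 ^ (L + 3) = 4 * 2 ^ (L + 1) := by ring
      omega
    have h5 : ((FF n r).card : ℝ) ≤ Real.exp (1 + r * (L + 3)) := by
      calc ((FF n r).card : ℝ) ≤ ((2 * (4 * n + 1) ^ r : ℕ) : ℝ) := Nat.cast_le.2 (card_FF n r)
        _ ≤ ((2 * (2 ^ (L + 3)) ^ r : ℕ) : ℝ) :=
            Nat.cast_le.2 (Nat.mul_le_mul_left _ (Nat.pow_le_pow_left h4 r))
        _ = (2 : ℝ) ^ (1 + r * (L + 3)) := by
            push_cast
            rw [← pow_mul, pow_add, pow_one, mul_comm (L + 3) r]
        _ ≤ Real.exp 1 ^ (1 + r * (L + 3)) := pow_le_pow_left₀ (by norm_num) (by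
            have := Real.add_one_le_exp (1 : ℝ)
            linarith) _
        _ = Real.exp (1 + r * (L + 3)) := by
            rw [Real.exp_one_pow]
            push_cast
            rfl
    have h6 : Real.exp (1 / (2 * R ^ 2) * M)
        ≤ Real.exp ((1 + r * (L + 3)) + 1 / (4 * R ^ 2) * M) := by
      rw [Real.exp_add]
      exact h1.trans (mul_le_mul_of_nonneg_right h5 (Real.exp_pos _).le)
    rw [Real.exp_le_exp] at h6
    have hR2 : 0 < R ^ 2 := by positivity
    have h7 : (M : ℝ) ≤ 4 * R ^ 2 * (1 + r * (L + 3)) := by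
      have h8 : 1 / (2 * R ^ 2) * (M : ℝ) - 1 / (4 * R ^ 2) * M = M / (4 * R ^ 2) := by
        field_simp
        ring
      have h9 : (M : ℝ) / (4 * R ^ 2) ≤ 1 + r * (L + 3) := by linarith
      rw [div_le_iff₀ (by positivity)] at h9
      linarith
    have h8 : (M : ℝ) ≤ ((48 * (r + 1) ^ 3 * (L + 1) : ℕ) : ℝ) := by
      refine h7.trans ?_
      rw [hR]
      push_cast
      have hr0 : (0 : ℝ) ≤ r := Nat.cast_nonneg r
      have hL0 : (0 : ℝ) ≤ L := Nat.cast_nonneg L
      have h9 : (1 : ℝ) + r * (L + 3) ≤ 3 * ((r + 1) * (L + 1)) := by nlinarith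
      calc 4 * (2 * ((r : ℝ) + 1)) ^ 2 * (1 + r * (L + 3))
          ≤ 4 * (2 * ((r : ℝ) + 1)) ^ 2 * (3 * ((r + 1) * (L + 1))) :=
            mul_le_mul_of_nonneg_left h9 (by positivity)
        _ = 48 * (r + 1) ^ 3 * (L + 1) := by ring
    exact_mod_cast h8

end Pool.Agent.helper18.DT
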