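import Pool.Agent.helper18.DT.Final
import Pool.Agent.helper18.DT.Halving
import Pool.Agent.helper18.DT.Two

/-!
# The size of the hypotheses of attribute-efficient learners
-/

namespace Pool.Agent.helper18.DT

open Pool.Agent.helper36.DL

theorem le_pow_two_add (c k : ℕ) : c ≤ (k + 2) ^ c :=
  (Nat.lt_two_pow_self).le.trans (Nat.pow_le_pow_left (by omega) c)

/-- the arithmetic -/
theorem polylog_le (K C k Y : ℕ) : K * (k + 1) * (38 * ((C + 1) * (3 * (k + 1)) ^ (2 * C)) ^ 2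
    * (4 * Y)) ≤ Y * (k + 2) ^ (152 + K + 1 + (C + 1) ^ 2 + 8 * C) := by
  have h1 := le_pow_two_add 152 k
  have h2 := le_pow_two_add K k
  have h3 := le_pow_two_add ((C + 1) ^ 2) k
  have h4 : (3 * (k + 1)) ^ (4 * C) ≤ (k + 2) ^ (8 * C) := by
    calc (3 * (k + 1)) ^ (4 * C) ≤ ((k + 2) ^ 2) ^ (4 * C) := Nat.pow_le_pow_left (by nlinarith) _
      _ = (k + 2) ^ (8 * C) := by rw [← pow_mul]; congr 1; ring
  have h5 : k + 1 ≤ (k + 2) ^ 1 := by rw [pow_one]; omega
  calc K * (k + 1) * (38 * ((C + 1) * (3 * (k + 1)) ^ (2 * C)) ^ 2 * (4 * Y))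
      = Y * (152 * K * (k + 1) * (C + 1) ^ 2 * (3 * (k + 1)) ^ (4 * C)) := by
        rw [mul_pow, ← pow_mul]
        have e : 2 * C * 2 = 4 * C := by ring
        rw [e]
        ring
    _ ≤ Y * ((k + 2) ^ 152 * (k + 2) ^ K * (k + 2) ^ 1 * (k + 2) ^ ((C + 1) ^ 2)
          * (k + 2) ^ (8 * C)) :=
        Nat.mul_le_mul_left _ (Nat.mul_le_mul (Nat.mul_le_mul (Nat.mul_le_mul
          (Nat.mul_le_mul h1 h2) h5) h3) h4)
    _ = Y * (k + 2) ^ (152 + K + 1 + (C + 1) ^ 2 + 8 * C) := by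
        rw [← pow_add, ← pow_add, ← pow_add, ← pow_add]

/-- **attribute-efficient learners need large trees** -/
theorem large_trees (α s : ℕ → ℕ → ℕ) (β : ∀ n : ℕ, ℕ → Fin n → Fin 3) (K : ℕ)
    (hβ : ∀ n r p, n ≤ K * ({j | β n r j = p}.ncard + 1)) (A : ∀ n : ℕ, ℕ → Learner n)
    (hA : ∀ n r h, IsLocalTree (blockTests (β n r)) (2 ^ α n r) (s n r) (A n r h))
    (hfew : FewMistakes A) : ∃ D : ℕ, ∀ n, n ≤ (α n (3 * Nat.log 2 n) + s n (3 * Nat.log 2 n) + 1)
      * (Nat.log 2 n + 2) ^ D := by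
  obtain ⟨C, hC⟩ := hfew
  refine ⟨152 + K + 1 + (C + 1) ^ 2 + 8 * C, fun n => ?_⟩
  set k := Nat.log 2 n with hk
  set r := 3 * k with hr
  set Y := α n r + s n r + 1 with hY
  refine le_trans ?_ (polylog_le K C k Y)
  set Z := (C + 1) * (3 * (k + 1)) ^ (2 * C) with hZ
  have hZ1 : 1 ≤ Z := Nat.mul_pos (Nat.succ_pos C) (Nat.pow_pos (by omega))
  have hnk : n < 2 ^ (k + 1) := Nat.lt_pow_succ_log_self (by norm_num) n
  rcases Nat.eq_zero_or_pos n with h0 | hn0
  · omega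
  have hK1 : 1 ≤ K := by
    rcases Nat.eq_zero_or_pos K with h | h
    · have h1 := hβ n r 0
      rw [h, zero_mul] at h1
      omega
    · exact h
  rcases Nat.eq_zero_or_pos k with hk0 | hk1
  · -- `n = 1`
    have h1 : n ≤ 1 := by
      rw [hk0] at hnk
      omega
    have h2 : 1 ≤ K * (k + 1) * (38 * Z ^ 2 * (4 * Y)) := by
      have : 0 < K * (k + 1) * (38 * Z ^ 2 * (4 * Y)) := by positivity
      exact this
    omega
  set w := n / K - 1 with hw
  set v := w / k with hv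
  have hwn : n ≤ K * (w + 2) := by
    have h1 : n < K * (n / K + 1) := Nat.lt_mul_div_succ n hK1
    have h2 : n / K + 1 ≤ w + 2 := by omega
    exact h1.le.trans (Nat.mul_le_mul_left _ h2)
  have hwv : w ≤ k * (v + 1) := (Nat.lt_mul_div_succ w hk1).le
  -- the bound for `v`
  have hvb : v ≤ 36 * Z ^ 2 * (4 * Y) := by
    rcases Nat.eq_zero_or_pos v with h0 | hv1
    · rw [h0]
      exact Nat.zero_le _
    obtain ⟨c, hc, hrel, xs, hxs⟩ := tree_learner n k v (α n r) (s n r) (β n r) hk1 hv1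
      (fun p => by
        have h1 : k * v ≤ w := Nat.mul_div_le w k
        have h2 : K * (n / K) ≤ K * ({j | β n r j = p}.ncard + 1) :=
          (Nat.mul_div_le n K).trans (hβ n r p)
        have h3 := Nat.le_of_mul_le_mul_left h2 hK1
        omega) (A n r) (hA n r)
    have hup := hxs.trans (hC n r c hc hrel xs)
    set B := C * (r + 1) ^ C * (Nat.log 2 n + 1) ^ C with hB
    have hBZ : B + 1 ≤ Z := by
      rw [hB, ← hk, hr, hZ]
      have h2 : (3 * k + 1) ^ C ≤ (3 * (k + 1)) ^ C := Nat.pow_le_pow_left (by omega) C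
      have h3 : (k + 1) ^ C ≤ (3 * (k + 1)) ^ C := Nat.pow_le_pow_left (by omega) C
      have h4 : 1 ≤ (3 * (k + 1)) ^ (2 * C) := Nat.one_le_pow _ _ (by omega)
      calc C * (3 * k + 1) ^ C * (k + 1) ^ C + 1
          ≤ C * (3 * (k + 1)) ^ C * (3 * (k + 1)) ^ C + (3 * (k + 1)) ^ (2 * C) :=
            Nat.add_le_add (Nat.mul_le_mul (Nat.mul_le_mul_left _ h2) h3) h4
        _ = (C + 1) * (3 * (k + 1)) ^ (2 * C) := by rw [two_mul C, pow_add]; ring
    have hvn : v ≤ n := (Nat.div_le_self _ _).trans ((Nat.sub_le _ _).trans (Nat.div_le_self _ _))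
    have hvq : v / 2 ^ k ≤ 1 := by
      have h1 : v / 2 ^ k < 2 := by
        rw [Nat.div_lt_iff_lt_mul (by positivity)]
        rw [pow_succ] at hnk
        omega
      omega
    set E := 3 * (Nat.sqrt (v * α n r) + 1) + s n r + v / 2 ^ k with hE
    have hE0 : 0 < E := by
      have h1 : 0 ≤ v / 2 ^ k := Nat.zero_le _
      omega
    have h1 : v - 1 < (B + 1) * E := by
      have h2 := Nat.lt_mul_div_succ (v - 1) hE0
      have h3 : E * ((v - 1) / E + 1) ≤ E * (B + 1) := Nat.mul_le_mul_left _ (by omega)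
      rw [mul_comm (B + 1) E]
      omega
    have h2 : v ≤ Z * E := by
      have h3 : (B + 1) * E ≤ Z * E := Nat.mul_le_mul_right _ hBZ
      omega
    by_contra hcon
    rw [not_le] at hcon
    set t := Nat.sqrt (v * α n r) with ht
    have htt : t * t ≤ v * α n r := Nat.sqrt_le _
    have h3 : 6 * Z * t ≤ v := by
      refine Nat.mul_self_le_mul_self_iff.1 ?_
      have h4 : 36 * Z ^ 2 * α n r ≤ v := by
        refine le_trans (Nat.mul_le_mul_left _ ?_) hcon.le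
        omega
      calc 6 * Z * t * (6 * Z * t) = 36 * Z ^ 2 * (t * t) := by ring
        _ ≤ 36 * Z ^ 2 * (v * α n r) := Nat.mul_le_mul_left _ htt
        _ = 36 * Z ^ 2 * α n r * v := by ring
        _ ≤ v * v := Nat.mul_le_mul_right _ h4
    have h4 : 2 * (Z * (s n r + 4)) < v := by
      refine lt_of_le_of_lt ?_ hcon
      calc 2 * (Z * (s n r + 4)) ≤ 2 * (Z * (4 * Y)) :=
            Nat.mul_le_mul_left _ (Nat.mul_le_mul_left _ (by omega))
        _ ≤ 2 * (Z * Z * (4 * Y)) := Nat.mul_le_mul_left _ (Nat.mul_le_mul_right _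
            (Nat.le_mul_of_pos_left _ hZ1))
        _ ≤ 36 * Z ^ 2 * (4 * Y) := by
            rw [sq]
            nlinarith [Nat.zero_le (Z * Z * (4 * Y))]
    have h5 : Z * E ≤ Z * (3 * t + (s n r + 4)) := Nat.mul_le_mul_left _ (by omega)
    have h6 : 2 * (Z * (3 * t + (s n r + 4))) = 6 * Z * t + 2 * (Z * (s n r + 4)) := by ring
    omega
  have hZY : 1 ≤ Z ^ 2 * (4 * Y) := Nat.mul_pos (by positivity) (by omega)
  have h7 : 36 * Z ^ 2 * (4 * Y) + 2 ≤ 38 * Z ^ 2 * (4 * Y) := by nlinarith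
  calc n ≤ K * (w + 2) := hwn
    _ ≤ K * (k * (v + 1) + 2) := Nat.mul_le_mul_left _ (by omega)
    _ ≤ K * ((k + 1) * (v + 2)) := Nat.mul_le_mul_left _ (by nlinarith)
    _ ≤ K * ((k + 1) * (38 * Z ^ 2 * (4 * Y))) :=
        Nat.mul_le_mul_left _ (Nat.mul_le_mul_left _ (by omega))
    _ = K * (k + 1) * (38 * Z ^ 2 * (4 * Y)) := by ring

theorem mod3_le (n : ℕ) (p : Fin 3) : n ≤ 3 * ({j | mod3 n j = p}.ncard + 1) := by
  have := card_mod3 n p
  omega

/-- **attribute-efficient learners need large networks** -/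
theorem large_nets (U : ℕ → ℕ → ℕ) (A : ∀ n : ℕ, ℕ → Learner n)
    (hA : ∀ n r h, ∃ u H, u ≤ U n r ∧ IsNet n u H ∧ ∀ x, A n r h x = H (val x))
    (hfew : FewMistakes A) :
    ∃ D : ℕ, ∀ n, n ≤ (U n (3 * Nat.log 2 n) + 1) * (Nat.log 2 n + 2) ^ D := by
  obtain ⟨D, hD⟩ := large_trees (fun n r => U n r + 1) (fun _ _ => 0) (fun n _ => mod3 n) 3
    (fun n r p => mod3_le n p) A (fun n r h => by
      obtain ⟨u, H, hu, hH, hx⟩ := hA n r h
      have h1 : IsLocalTree (halfspaces n) (2 ^ (U n r + 1)) 0 (A n r h) :=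
        ⟨∅, fun _ => false, 2 ^ (u + 1), fun x => H (val x), by simp,
          Nat.pow_le_pow_right (by norm_num) (Nat.succ_le_succ hu),
          isTree_net_val hH, fun x _ => hx x⟩
      exact h1.mono (halfspaces_subset _)) hfew
  refine ⟨D + 1, fun n => (hD n).trans ?_⟩
  set k := Nat.log 2 n
  set u := U n (3 * k)
  rw [pow_succ, add_zero]
  calc (u + 1 + 1) * (k + 2) ^ D ≤ ((u + 1) * (k + 2)) * (k + 2) ^ D :=
        Nat.mul_le_mul_right _ (by nlinarith [Nat.zero_le (u * k), Nat.zero_le u, Nat.zero_le k])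
    _ = (u + 1) * ((k + 2) ^ D * (k + 2)) := by ring

theorem fewMistakes_of_le {A : ∀ n : ℕ, ℕ → Learner n} (K e : ℕ) (hK : 1 ≤ K) (he : e ≤ K)
    (h : ∀ (n r : ℕ) (c : Cube n → Bool), IsDecisionList c → (relevant c).ncard ≤ r →
      ∀ xs, mistakes (A n r) c [] xs ≤ K * (r + 1) ^ e * (Nat.log 2 n + 1)) : FewMistakes A := by
  refine ⟨K, fun n r c hc hr xs => (h n r c hc hr xs).trans ?_⟩
  refine Nat.mul_le_mul (Nat.mul_le_mul_left _ (Nat.pow_le_pow_right (Nat.succ_pos r) he)) ?_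
  exact Nat.le_self_pow (by omega) _

/-- `n + 1` units suffice -/
theorem many_units : ∃ A : ∀ n : ℕ, ℕ → Learner n,
    (∀ n r h, ∃ H, IsNet n (n + 1) H ∧ ∀ x, A n r h x = H (val x)) ∧ FewMistakes A := by
  refine ⟨fun n r => voter (FF n r), fun n r h => voter_net n r h,
    fewMistakes_of_le 55 1 (by norm_num) (by norm_num) fun n r c hc hr xs => ?_⟩
  rw [pow_one]
  exact voter_bound n r c hc hr xs

/-- two blocks -/
theorem two_blocks_few (β : ∀ n : ℕ, ℕ → Fin n → Fin 2) : ∃ A : ∀ n : ℕ, ℕ → Learner n,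
    (∀ n r h, A n r h ∈ blockTests (β n r)) ∧ FewMistakes A := by
  choose A hA1 hA2 using fun (n r : ℕ) => two_blocks (β n r) r
  exact ⟨A, hA1, fewMistakes_of_le 48 3 (by norm_num) (by norm_num)
    fun n r c hc hr xs => hA2 n r c hc hr xs⟩

end Pool.Agent.helper18.DT
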