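import Pool.Agent.helper18.DT.Lemmas

/-!
# Networks with few piecewise linear units are small decision trees of halfspaces
-/

namespace Pool.Agent.helper18.DT

open Finset Pool.Agent.helper36.DL

/-- the affine functions of the variables -/
def IsAffine {n : ℕ} (f : Cube n → ℝ) : Prop :=
  ∃ (w : Fin n → ℝ) (θ : ℝ), ∀ x, f x = ∑ j, w j * val x j + θ

theorem isAffine_val {n : ℕ} (j : Fin n) : IsAffine fun x => val x j := by
  refine ⟨fun i => if i = j then 1 else 0, 0, fun x => ?_⟩
  simp

theorem IsAffine.comb {n N : ℕ} {φ : Cube n → Fin N → ℝ} (hφ : ∀ i, IsAffine fun x => φ x i)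
    (w : Fin N → ℝ) (θ : ℝ) : IsAffine fun x => ∑ i, w i * φ x i + θ := by
  choose u t h using hφ
  refine ⟨fun j => ∑ i, w i * u i j, ∑ i, w i * t i + θ, fun x => ?_⟩
  have h1 : ∀ i, w i * φ x i = ∑ j, w i * u i j * val x j + w i * t i := by
    intro i
    have h2 := h i x
    simp only at h2
    rw [h2, mul_add, Finset.mul_sum]
    congr 1
    exact Finset.sum_congr rfl fun j _ => by ring
  beta_reduce
  rw [Finset.sum_congr rfl fun i _ => h1 i, Finset.sum_add_distrib, Finset.sum_comm, add_assoc]
  congr 1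
  refine Finset.sum_congr rfl fun j _ => ?_
  rw [Finset.sum_mul]

theorem IsAffine.mul_add {n : ℕ} {f : Cube n → ℝ} (hf : IsAffine f) (α β : ℝ) :
    IsAffine fun x => α * f x + β := by
  obtain ⟨w, θ, h⟩ := hf
  refine ⟨fun j => α * w j, α * θ + β, fun x => ?_⟩
  beta_reduce
  rw [h x, _root_.mul_add, Finset.mul_sum, add_assoc]
  congr 1
  exact Finset.sum_congr rfl fun j _ => by ring

theorem IsAffine.halfspace {n : ℕ} {f : Cube n → ℝ} (hf : IsAffine f) :
    (fun x => decide (0 < f x)) ∈ halfspaces n := by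
  obtain ⟨w, θ, h⟩ := hf
  refine ⟨w, -θ, fun x => ?_⟩
  rw [decide_eq_true_eq, h x]
  have h1 : ∑ j, w j * val x j = ∑ j, if x j = true then w j else 0 := by
    refine Finset.sum_congr rfl fun j _ => ?_
    rw [val]
    split_ifs <;> simp
  rw [h1]
  constructor <;> intro h2 <;> linarith

theorem isTree_net {n N U : ℕ} {h : (Fin N → ℝ) → Bool} (hh : IsNet N U h) :
    ∀ φ : Cube n → Fin N → ℝ, (∀ i, IsAffine fun x => φ x i) →
      IsTree (halfspaces n) (2 ^ (U + 1)) fun x => h (φ x) := by
  induction hh with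
  | out w θ =>
    intro φ hφ
    have h1 := IsTree.node (IsAffine.comb hφ w θ).halfspace (IsTree.leaf true) (IsTree.leaf false)
    have h2 : (fun x => decide (0 < ∑ i, w i * φ x i + θ)) = fun x =>
        if decide (0 < ∑ i, w i * φ x i + θ) = true then true else false := by
      funext x
      split_ifs with h3
      · exact h3
      · simpa using h3
    rw [h2]
    exact h1
  | @unit N U w θ α β γ δ g hg ih =>
    intro φ hφ
    have hz := IsAffine.comb hφ w θ
    have hsn : ∀ f : Cube n → ℝ, IsAffine f → ∀ i,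
        IsAffine fun x => (Fin.snoc (φ x) (f x) : Fin (N + 1) → ℝ) i := by
      intro f hf i
      refine Fin.lastCases ?_ (fun i => ?_) i
      · simpa using hf
      · simpa using hφ i
    have h1 := IsTree.node hz.halfspace
      (ih (fun x => Fin.snoc (φ x) (α * (∑ i, w i * φ x i + θ) + β)) (hsn _ (hz.mul_add α β)))
      (ih (fun x => Fin.snoc (φ x) (γ * (∑ i, w i * φ x i + θ) + δ)) (hsn _ (hz.mul_add γ δ)))
    have h2 : (fun x => g (Fin.snoc (φ x) (if 0 < ∑ i, w i * φ x i + θ
        then α * (∑ i, w i * φ x i + θ) + β else γ * (∑ i, w i * φ x i + θ) + δ)))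
        = fun x => if decide (0 < ∑ i, w i * φ x i + θ) = true
          then g (Fin.snoc (φ x) (α * (∑ i, w i * φ x i + θ) + β))
          else g (Fin.snoc (φ x) (γ * (∑ i, w i * φ x i + θ) + δ)) := by
      funext x
      by_cases h3 : 0 < ∑ i, w i * φ x i + θ
      · simp [h3]
      · simp [h3]
    rw [h2, pow_succ, mul_two]
    exact h1

/-- a network with `U` units is a decision tree of halfspaces with `2 ^ (U + 1)` leaves -/
theorem isTree_net_val {n U : ℕ} {h : (Fin n → ℝ) → Bool} (hh : IsNet n U h) :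
    IsTree (halfspaces n) (2 ^ (U + 1)) fun x => h (val x) :=
  isTree_net hh _ isAffine_val

end Pool.Agent.helper18.DT
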