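import Pool.Agent.helper18.DQ.Pat

/-!
# Two families of patterns with the same marginals on three blocks

The levels are `0, ..., m - 1`; a higher level has a higher priority, and the level `i` has the
label `true` iff it is even. The level `i` lies in the block `i % 3`. The patterns of the two
families are the sets `{i, i - 1, i - 5}`, which have the label of `i`, with suitable
multiplicities, one exception `{m - 1}` with the wrong label, and the empty set.
-/

namespace Pool.Agent.helper18.DT

open Finset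
open Pool.Agent.helper36.DL2 (lab levels mem_levels)

/-- the multiplicities -/
def ee : ℕ → ℕ
  | 0 => 0
  | 1 => 1
  | 2 => 1
  | 3 => 1
  | 4 => 1
  | 5 => 1
  | t + 6 => ee (t + 5) + ee (t + 1)

theorem ee_rec (t : ℕ) : ee (t + 2) = ee (t + 1) + ee (t - 3) := by
  rcases t with _ | _ | _ | _ | t
  · rfl
  · rfl
  · rfl
  · rfl
  · show ee (t + 6) = ee (t + 5) + ee (t + 1)
    rfl

theorem ee_le_succ (t : ℕ) : ee t ≤ ee (t + 1) := by
  rcases t with _ | t
  · exact Nat.zero_le _
  · rw [ee_rec]
    exact Nat.le_add_right _ _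

theorem ee_add_five (t : ℕ) : ee (t + 5) ≤ ee (t + 4) + ee t := by
  have h := ee_rec (t + 3)
  have h1 : t + 3 + 2 = t + 5 := by ring
  have h2 : t + 3 + 1 = t + 4 := by ring
  rw [h1, h2, Nat.add_sub_cancel] at h
  exact h.le

theorem two_mul_ee (s : ℕ) : 2 * ee (s + 5) ≤ ee (s + 8) := by
  have h1 : ee (s + 8) = ee (s + 7) + ee (s + 3) := rfl
  have h2 : ee (s + 7) = ee (s + 6) + ee (s + 2) := rfl
  have h3 : ee (s + 6) = ee (s + 5) + ee (s + 1) := rfl
  have h4 := ee_add_five s
  have h5 : ee (s + 4) ≤ ee (s + 3) + ee (s + 1) := by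
    rcases s with _ | s
    · decide
    · have h6 := ee_add_five s
      have h7 := ee_le_succ s
      have h8 := ee_le_succ (s + 1)
      have e1 : s + 1 + 4 = s + 5 := by ring
      have e2 : s + 1 + 3 = s + 4 := by ring
      rw [e1, e2]
      exact h6.trans (by
        have : ee s ≤ ee (s + 1 + 1) := h7.trans h8
        omega)
  have h6 : ee s ≤ ee (s + 2) := (ee_le_succ s).trans (ee_le_succ (s + 1))
  omega

theorem two_pow_le_ee (q : ℕ) : 2 ^ (q + 2) ≤ ee (3 * (q + 1) + 5) := by
  induction q with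
  | zero => decide
  | succ q ih =>
    have h := two_mul_ee (3 * (q + 1))
    have e1 : 3 * (q + 1 + 1) + 5 = 3 * (q + 1) + 8 := by ring
    rw [e1, pow_succ]
    omega

theorem sum_ee (m : ℕ) : ∑ i ∈ range m, ee (m - i) + 1 = ee (m + 5) := by
  induction m with
  | zero => rfl
  | succ m ih =>
    rw [Finset.sum_range_succ']
    simp only [Nat.add_sub_add_right, Nat.sub_zero]
    have h : ee (m + 1 + 5) = ee (m + 5) + ee (m + 1) := rfl
    rw [h, ← ih]
    ring

/-- the main identity -/
theorem main_id (m : ℕ) : ∀ H : ℕ → ℝ,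
    ∑ i ∈ range m, (-1 : ℝ) ^ i * ee (m - i) * (H i + H (i + 4) + H (i + 5))
      + (-1) ^ m * H (m + 4)
    = ee m * H 0 - ee (m - 1) * H 1 + ee (m - 2) * H 2 - ee (m - 3) * H 3 + ee (m + 1) * H 4 := by
  induction m with
  | zero => intro H; simp [ee]
  | succ m ih =>
    intro H
    rw [Finset.sum_range_succ']
    simp only [Nat.add_sub_add_right, Nat.sub_zero, pow_zero, zero_add, one_mul]
    have h1 := ih fun y => H (y + 1)
    simp only [zero_add] at h1
    have h2 : ∑ i ∈ range m, (-1 : ℝ) ^ (i + 1) * ee (m - i)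
        * (H (i + 1) + H (i + 1 + 4) + H (i + 1 + 5))
        = -∑ i ∈ range m, (-1 : ℝ) ^ i * ee (m - i)
          * (H (i + 1) + H (i + 4 + 1) + H (i + 5 + 1)) := by
      rw [← Finset.sum_neg_distrib]
      refine Finset.sum_congr rfl fun i _ => ?_
      have e1 : i + 1 + 4 = i + 4 + 1 := by ring
      have e2 : i + 1 + 5 = i + 5 + 1 := by ring
      rw [e1, e2, pow_succ]
      ring
    rw [h2]
    have h3 : (ee (m + 1 + 1) : ℝ) = ee (m + 1) + ee (m - 3) := by
      exact_mod_cast ee_rec m
    have e3 : m + 1 + 4 = m + 4 + 1 := by ring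
    have e4 : m + 1 - 1 = m := by omega
    have e5 : m + 1 - 2 = m - 1 := by omega
    have e6 : m + 1 - 3 = m - 2 := by omega
    have e7 : (1 : ℕ) + 1 = 2 := rfl
    have e8 : (2 : ℕ) + 1 = 3 := rfl
    have e9 : (3 : ℕ) + 1 = 4 := rfl
    have e10 : (4 : ℕ) + 1 = 5 := rfl
    rw [e7, e8, e9, e10] at h1
    rw [h3, e3, e4, e5, e6, pow_succ]
    linear_combination -h1

/-- the pattern `{i, i - 1, i - 5}` -/
def tri (i : ℕ) : Finset ℕ := (range (i + 1)).filter fun j => j = i ∨ j + 1 = i ∨ j + 5 = i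

/-- the patterns; those with the numbers `m` and `m + 1` are the exception and the empty set -/
def pat (m i : ℕ) : Finset ℕ :=
  if i < m then tri i else if i = m then (range m).filter fun j => j + 1 = m else ∅

/-- the content of the block `p` -/
def blk (p : ℕ) (S : Finset ℕ) : Finset ℕ := S.filter fun j => j % 3 = p

/-- the auxiliary function -/
def hh (p : ℕ) (f : Finset ℕ → ℝ) (y : ℕ) : ℝ :=
  if y % 3 = (p + 2) % 3 then (if 5 ≤ y then f {y - 5} else f ∅) else 0

theorem hh_zero {p : ℕ} {f : Finset ℕ → ℝ} {y : ℕ} (h : ¬ y % 3 = (p + 2) % 3) :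
    hh p f y = 0 := by rw [hh, if_neg h]

theorem hh_pos {p : ℕ} {f : Finset ℕ → ℝ} {y : ℕ} (h : y % 3 = (p + 2) % 3) (h5 : 5 ≤ y) :
    hh p f y = f {y - 5} := by rw [hh, if_pos h, if_pos h5]

theorem hh_small {p : ℕ} {f : Finset ℕ → ℝ} {y : ℕ} (h : y % 3 = (p + 2) % 3) (h5 : ¬ 5 ≤ y) :
    hh p f y = f ∅ := by rw [hh, if_pos h, if_neg h5]

theorem blk_tri {p : ℕ} (hp : p < 3) (f : Finset ℕ → ℝ) (i : ℕ) :
    f (blk p (tri i)) = hh p f i + hh p f (i + 4) + hh p f (i + 5) := by
  have h3 : i % 3 = p ∨ i % 3 = (p + 1) % 3 ∨ i % 3 = (p + 2) % 3 := by omega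
  rcases h3 with h | h | h
  · have h1 : blk p (tri i) = {i} := by
      ext j
      simp only [blk, tri, Finset.mem_filter, Finset.mem_range, Finset.mem_singleton]
      omega
    rw [h1, hh_zero (y := i) (by omega), hh_zero (y := i + 4) (by omega),
      hh_pos (y := i + 5) (by omega) (by omega)]
    simp
  · rw [hh_zero (y := i) (by omega), hh_zero (y := i + 5) (by omega)]
    by_cases h5 : 5 ≤ i + 4
    · have h1 : blk p (tri i) = {i + 4 - 5} := by
        ext j
        simp only [blk, tri, Finset.mem_filter, Finset.mem_range, Finset.mem_singleton]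
        omega
      rw [h1, hh_pos (y := i + 4) (by omega) h5]
      ring
    · have h1 : blk p (tri i) = ∅ := by
        ext j
        simp only [blk, tri, Finset.mem_filter, Finset.mem_range, Finset.notMem_empty, iff_false]
        omega
      rw [h1, hh_small (y := i + 4) (by omega) h5]
      ring
  · rw [hh_zero (y := i + 4) (by omega), hh_zero (y := i + 5) (by omega)]
    by_cases h5 : 5 ≤ i
    · have h1 : blk p (tri i) = {i - 5} := by
        ext j
        simp only [blk, tri, Finset.mem_filter, Finset.mem_range, Finset.mem_singleton]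
        omega
      rw [h1, hh_pos (y := i) h h5]
      ring
    · have h1 : blk p (tri i) = ∅ := by
        ext j
        simp only [blk, tri, Finset.mem_filter, Finset.mem_range, Finset.notMem_empty, iff_false]
        omega
      rw [h1, hh_small (y := i) h h5]
      ring

theorem blk_exc {p : ℕ} (hp : p < 3) (f : Finset ℕ → ℝ) (m : ℕ) :
    f (blk p (pat m m)) = hh p f (m + 4) + (if (m + 4) % 3 = (p + 2) % 3 then 0 else f ∅) := by
  rw [pat, if_neg (lt_irrefl m), if_pos rfl]
  by_cases h : (m + 4) % 3 = (p + 2) % 3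
  · rw [hh, if_pos h, if_pos h, add_zero]
    by_cases h5 : 5 ≤ m + 4
    · rw [if_pos h5]
      congr 1
      ext j
      simp only [blk, Finset.mem_filter, Finset.mem_range, Finset.mem_singleton]
      omega
    · rw [if_neg h5]
      congr 1
      ext j
      simp only [blk, Finset.mem_filter, Finset.mem_range, Finset.notMem_empty, iff_false]
      omega
  · rw [hh, if_neg h, if_neg h, zero_add]
    congr 1
    ext j
    simp only [blk, Finset.mem_filter, Finset.mem_range, Finset.notMem_empty, iff_false]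
    omega

/-- the number of the empty sets -/
noncomputable def tau (m : ℕ) : ℝ := ∑ i ∈ range m, (-1 : ℝ) ^ i * ee (m - i) + (-1) ^ m

theorem tau_succ (m : ℕ) : tau (m + 1) = ee (m + 1) - tau m := by
  rw [tau, tau, Finset.sum_range_succ']
  simp only [Nat.add_sub_add_right, Nat.sub_zero, pow_zero, one_mul]
  have h : ∑ i ∈ range m, (-1 : ℝ) ^ (i + 1) * ee (m - i)
      = -∑ i ∈ range m, (-1 : ℝ) ^ i * ee (m - i) := by
    rw [← Finset.sum_neg_distrib]
    exact Finset.sum_congr rfl fun i _ => by rw [pow_succ]; ring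
  rw [h, pow_succ]
  ring

theorem tau_bounds (m : ℕ) : 0 ≤ tau m ∧ tau m ≤ ee (m + 1) := by
  induction m with
  | zero => simp [tau, ee]
  | succ m ih =>
    rw [tau_succ]
    have h : (ee (m + 1) : ℝ) ≤ ee (m + 1 + 1) := by exact_mod_cast ee_le_succ (m + 1)
    constructor <;> linarith [ih.1, ih.2]

/-- the multiplicities of the patterns in the family of the label `b` -/
noncomputable def raw (m : ℕ) (b : Bool) (i : ℕ) : ℝ :=
  if i < m then (if decide (Even i) = b then (ee (m - i) : ℝ) else 0)
  else if i = m then (if decide (Even m) = b then 1 else 0)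
  else (if b = true then 0 else tau m)

theorem raw_nonneg (m : ℕ) (b : Bool) (i : ℕ) : 0 ≤ raw m b i := by
  rw [raw]
  split_ifs
  · positivity
  · exact le_rfl
  · exact zero_le_one
  · exact le_rfl
  · exact le_rfl
  · exact (tau_bounds m).1

theorem sum_raw (m : ℕ) (b : Bool) (F : ℕ → ℝ) : ∑ i ∈ range (m + 2), raw m b i * F i
    = ∑ i ∈ range m, (if decide (Even i) = b then (ee (m - i) : ℝ) else 0) * F i
      + (if decide (Even m) = b then 1 else 0) * F m
      + (if b = true then 0 else tau m) * F (m + 1) := by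
  rw [Finset.sum_range_succ, Finset.sum_range_succ]
  have h1 : raw m b m = if decide (Even m) = b then 1 else 0 := by
    rw [raw, if_neg (lt_irrefl m), if_pos rfl]
  have h2 : raw m b (m + 1) = if b = true then 0 else tau m := by
    rw [raw, if_neg (by omega), if_neg (by omega)]
  rw [h1, h2]
  congr 2
  refine Finset.sum_congr rfl fun i hi => ?_
  rw [raw, if_pos (Finset.mem_range.1 hi)]

theorem sign_ite (i : ℕ) (x : ℝ) : (if decide (Even i) = true then x else 0)
    - (if decide (Even i) = false then x else 0) = (-1) ^ i * x := by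
  by_cases h : Even i
  · simp [h]
  · have h' : Odd i := Nat.not_even_iff_odd.1 h
    simp [h, h'.neg_one_pow]

/-- the difference of the two families -/
theorem raw_diff (m : ℕ) (F : ℕ → ℝ) :
    ∑ i ∈ range (m + 2), raw m true i * F i - ∑ i ∈ range (m + 2), raw m false i * F i
      = ∑ i ∈ range m, (-1 : ℝ) ^ i * ee (m - i) * F i + (-1) ^ m * F m
        - tau m * F (m + 1) := by
  rw [sum_raw, sum_raw]
  have h1 : ∀ i, (-1 : ℝ) ^ i * ee (m - i) * F i
      = (if decide (Even i) = true then (ee (m - i) : ℝ) else 0) * F i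
        - (if decide (Even i) = false then (ee (m - i) : ℝ) else 0) * F i := by
    intro i
    rw [← sign_ite]
    ring
  have h2 := sign_ite m 1
  rw [mul_one] at h2
  rw [Finset.sum_congr rfl fun i _ => h1 i, Finset.sum_sub_distrib, ← h2,
    if_pos (rfl : true = true), if_neg (by simp : ¬ false = true)]
  ring

theorem raw_total (m : ℕ) : ∑ i ∈ range (m + 2), raw m true i
    = ∑ i ∈ range (m + 2), raw m false i := by
  have h := raw_diff m fun _ => 1
  simp only [mul_one] at h
  rw [← tau, sub_self] at h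
  linarith

theorem exists_kappa {p : ℕ} (hp : p < 3) (m : ℕ) : ∃ κ : ℝ, ∀ f : Finset ℕ → ℝ,
    ∑ i ∈ range (m + 2), raw m true i * f (blk p (pat m i))
      - ∑ i ∈ range (m + 2), raw m false i * f (blk p (pat m i)) = κ * f ∅ := by
  set δ : ℕ → ℝ := fun y => if y % 3 = (p + 2) % 3 then 1 else 0 with hδ
  refine ⟨ee m * δ 0 - ee (m - 1) * δ 1 + ee (m - 2) * δ 2 - ee (m - 3) * δ 3 + ee (m + 1) * δ 4
    + (-1) ^ m * (1 - δ (m + 4)) - tau m, fun f => ?_⟩
  rw [raw_diff, blk_exc hp f m]
  have h1 : ∑ i ∈ range m, (-1 : ℝ) ^ i * ee (m - i) * f (blk p (pat m i))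
      = ∑ i ∈ range m, (-1 : ℝ) ^ i * ee (m - i) * (hh p f i + hh p f (i + 4) + hh p f (i + 5)) := by
    refine Finset.sum_congr rfl fun i hi => ?_
    rw [← blk_tri hp, pat, if_pos (Finset.mem_range.1 hi)]
  have h2 : f (blk p (pat m (m + 1))) = f ∅ := by
    congr 1
    rw [pat, if_neg (by omega), if_neg (by omega)]
    rfl
  have h3 := main_id m (hh p f)
  have h4 : ∀ y < 5, hh p f y = δ y * f ∅ := by
    intro y hy
    rw [hh, hδ]
    simp only
    split_ifs
    · omega
    · rw [one_mul]
    · rw [zero_mul]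
  have h5 : (if (m + 4) % 3 = (p + 2) % 3 then 0 else f ∅) = (1 - δ (m + 4)) * f ∅ := by
    rw [hδ]
    simp only
    split_ifs <;> ring
  rw [h4 0 (by norm_num), h4 1 (by norm_num), h4 2 (by norm_num), h4 3 (by norm_num),
    h4 4 (by norm_num)] at h3
  rw [h1, h2, h5]
  linear_combination h3

/-- **the two families have the same marginals** -/
theorem raw_marginal {p : ℕ} (hp : p < 3) (m : ℕ) (f : Finset ℕ → ℝ) :
    ∑ i ∈ range (m + 2), raw m true i * f (blk p (pat m i))
      = ∑ i ∈ range (m + 2), raw m false i * f (blk p (pat m i)) := by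
  obtain ⟨κ, hκ⟩ := exists_kappa hp m
  have h1 := hκ fun _ => 1
  simp only [mul_one] at h1
  rw [raw_total, sub_self] at h1
  have h2 := hκ f
  rw [← h1, zero_mul] at h2
  linarith

/-- the total multiplicity is large -/
theorem raw_total_ge {q : ℕ} (hq : 1 ≤ q) (b : Bool) :
    (2 : ℝ) ^ q ≤ ∑ i ∈ range (3 * q + 2), raw (3 * q) b i := by
  set m := 3 * q with hm
  have h1 : ∑ i ∈ range (m + 2), raw m true i + ∑ i ∈ range (m + 2), raw m false i
      = ee (m + 5) + tau m := by
    have ht := sum_raw m true fun _ => 1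
    have hf := sum_raw m false fun _ => 1
    simp only [mul_one] at ht hf
    rw [ht, hf]
    have h2 : ∑ i ∈ range m, (ee (m - i) : ℝ)
        = ∑ i ∈ range m, (if decide (Even i) = true then (ee (m - i) : ℝ) else 0)
          + ∑ i ∈ range m, (if decide (Even i) = false then (ee (m - i) : ℝ) else 0) := by
      rw [← Finset.sum_add_distrib]
      refine Finset.sum_congr rfl fun i _ => ?_
      by_cases h : Even i <;> simp [h]
    have h3 : ((∑ i ∈ range m, ee (m - i) + 1 : ℕ) : ℝ) = ee (m + 5) := by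
      rw [sum_ee]
    push_cast at h3
    rw [← h3, h2]
    by_cases h : Even m <;> simp [h] <;> ring
  have h2 : (2 : ℝ) * 2 ^ q ≤ ee (m + 5) := by
    obtain ⟨k, rfl⟩ : ∃ k, q = k + 1 := ⟨q - 1, by omega⟩
    have h3 := two_pow_le_ee k
    have h4 : ((2 ^ (k + 2) : ℕ) : ℝ) ≤ ee (3 * (k + 1) + 5) := by exact_mod_cast h3
    push_cast at h4
    calc (2 : ℝ) * 2 ^ (k + 1) = 2 ^ (k + 2) := by ring
      _ ≤ _ := h4
  have h3 := (tau_bounds m).1
  have h4 := raw_total m
  cases b <;> linarith

/-- the levels of a pattern -/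
def lev (S : Finset ℕ) : Finset (ℕ × ℕ) := S ×ˢ {0}

theorem mem_lev {S : Finset ℕ} {i l : ℕ} : (i, l) ∈ lev S ↔ i ∈ S ∧ l = 0 := by
  rw [lev, Finset.mem_product, Finset.mem_singleton]

theorem lab_top {S : Finset ℕ} {i : ℕ} (hi : i ∈ S) (hS : ∀ j ∈ S, j ≤ i) {m : ℕ} (him : i < m) :
    lab (lev S) 1 m = decide (Even i) := by
  induction m with
  | zero => omega
  | succ m ih =>
    rw [lab]
    by_cases h : i = m
    · rw [if_pos ⟨0, Nat.one_pos, mem_lev.2 ⟨h ▸ hi, rfl⟩⟩, h]
    · rw [if_neg, ih (by omega)]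
      rintro ⟨l, _, hl⟩
      have := hS m (mem_lev.1 hl).1
      omega

theorem lab_pat {m i : ℕ} (hi : i < m) : lab (lev (pat m i)) 1 m = decide (Even i) := by
  rw [pat, if_pos hi]
  refine lab_top ?_ (fun j hj => ?_) hi
  · rw [tri, Finset.mem_filter, Finset.mem_range]
    exact ⟨Nat.lt_succ_self i, Or.inl rfl⟩
  · rw [tri, Finset.mem_filter, Finset.mem_range] at hj
    omega

theorem lab_pat_succ (m : ℕ) : lab (lev (pat m (m + 1))) 1 m = false := by
  have h : lev (pat m (m + 1)) = ∅ := by
    rw [pat, if_neg (by omega), if_neg (by omega)]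
    rfl
  rw [h]
  exact DQ.lab_empty 1 m

theorem pat_subset (m i : ℕ) : pat m i ⊆ range m := by
  intro j hj
  rw [pat] at hj
  split_ifs at hj with h1 h2
  · rw [tri, Finset.mem_filter, Finset.mem_range] at hj
    rw [Finset.mem_range]
    omega
  · exact (Finset.mem_filter.1 hj).1
  · exact absurd hj (Finset.notMem_empty j)

/-- whether a pattern has the wrong label -/
noncomputable def bd (m : ℕ) (b : Bool) (i : ℕ) : ℝ :=
  if lab (lev (pat m i)) 1 m = b then 0 else 1

theorem sum_bad (m : ℕ) (b : Bool) : ∑ i ∈ range (m + 2), raw m b i * bd m b i ≤ 1 := by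
  rw [sum_raw]
  have h1 : ∑ i ∈ range m, (if decide (Even i) = b then (ee (m - i) : ℝ) else 0) * bd m b i
      = 0 := by
    refine Finset.sum_eq_zero fun i hi => ?_
    rw [bd, lab_pat (Finset.mem_range.1 hi)]
    split_ifs <;> simp
  have h2 : (if b = true then 0 else tau m) * bd m b (m + 1) = 0 := by
    rw [bd, lab_pat_succ]
    cases b <;> simp
  have h3 : (if decide (Even m) = b then (1 : ℝ) else 0) * bd m b m ≤ 1 := by
    rw [bd]
    split_ifs <;> simp
  rw [h1, h2]
  linarith

end Pool.Agent.helper18.DT
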