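import Pool.Agent.helper18.DT.Core
import Pool.Agent.helper18.DT.Pat
import Pool.Agent.helper18.DQ.Inst

/-!
# Forcing a mistake
-/

namespace Pool.Agent.helper18.DT

open Finset Pool.Agent.helper36.DL
open Pool.Agent.helper36.DL2 (lab levels tgt tgt_lab mem_levels)
open Pool.Agent.helper18.DQ (inst trueSet tgt_inst)

variable {n : ℕ}

/-- the block of a level -/
def bl (i : ℕ) : Fin 3 := ⟨i % 3, Nat.mod_lt _ (by norm_num)⟩

/-- the pattern with given contents of the blocks -/
def glue (m : ℕ) {v : ℕ} (x : Fin 3 → Fin v → Finset ℕ) (c : Fin v) : Finset ℕ :=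
  (range m).filter fun i => i ∈ x (bl i) c

/-- the patterns of the candidates -/
noncomputable def zz (m : ℕ) (C : Finset ℕ) (x : Fin 3 → Fin C.card → Finset ℕ) (c : ℕ) :
    Finset (ℕ × ℕ) :=
  if hc : c ∈ C then lev (glue m x (C.equivFin ⟨c, hc⟩)) else ∅

theorem mem_zz {m : ℕ} {C : Finset ℕ} {x : Fin 3 → Fin C.card → Finset ℕ} {c : ℕ} (hc : c ∈ C)
    {i l : ℕ} : (i, l) ∈ zz m C x c ↔ (i < m ∧ i ∈ x (bl i) (C.equivFin ⟨c, hc⟩)) ∧ l = 0 := by
  rw [zz, dif_pos hc, mem_lev, glue, Finset.mem_filter, Finset.mem_range]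

theorem zz_subset (m : ℕ) (C : Finset ℕ) (x : Fin 3 → Fin C.card → Finset ℕ) (c : ℕ) :
    zz m C x c ⊆ levels m 1 := by
  by_cases hc : c ∈ C
  · rintro ⟨i, l⟩ h
    rw [mem_zz hc] at h
    rw [mem_levels]
    exact ⟨h.1.1, by rw [h.2]; exact Nat.one_pos⟩
  · rw [zz, dif_neg hc]
    exact Finset.empty_subset _

/-- only the block `p` -/
def only (p : Fin 3) {v : ℕ} (ω : Fin v → Finset ℕ) : Fin 3 → Fin v → Finset ℕ :=
  fun p' => if p' = p then ω else fun _ => ∅

theorem inst_only {m N : ℕ} {vr : (ℕ × ℕ) × ℕ → Fin n} {β : Fin n → Fin 3}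
    (hβ : ∀ i < m, ∀ c < N, β (vr ((i, 0), c)) = bl i) {C : Finset ℕ} (hC : C ⊆ range N)
    (S : Finset (Fin n)) (u : Cube n) (x : Fin 3 → Fin C.card → Finset ℕ) (p : Fin 3)
    (j : Fin n) (hj : β j = p) :
    inst vr S u C (zz m C x) j = inst vr S u C (zz m C (only p (x p))) j := by
  rw [inst, inst]
  split_ifs with hjS
  · rfl
  refine decide_eq_decide.2 ?_
  rw [trueSet, trueSet, Finset.mem_image, Finset.mem_image]
  constructor
  · rintro ⟨⟨c, ⟨i, l⟩⟩, h1, h2⟩
    rw [Finset.mem_sigma] at h1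
    obtain ⟨hc, h3⟩ := h1
    rw [mem_zz hc] at h3
    obtain ⟨⟨h4, h5⟩, rfl⟩ := h3
    have h6 : bl i = p := by
      rw [← hβ i h4 c (Finset.mem_range.1 (hC hc)), ← hj]
      exact congrArg β h2
    refine ⟨⟨c, (i, 0)⟩, Finset.mem_sigma.2 ⟨hc, (mem_zz hc).2 ⟨⟨h4, ?_⟩, rfl⟩⟩, h2⟩
    rw [only, if_pos h6, ← h6]
    exact h5
  · rintro ⟨⟨c, ⟨i, l⟩⟩, h1, h2⟩
    rw [Finset.mem_sigma] at h1
    obtain ⟨hc, h3⟩ := h1
    rw [mem_zz hc] at h3
    obtain ⟨⟨h4, h5⟩, rfl⟩ := h3
    have h6 : bl i = p := by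
      rw [← hβ i h4 c (Finset.mem_range.1 (hC hc)), ← hj]
      exact congrArg β h2
    refine ⟨⟨c, (i, 0)⟩, Finset.mem_sigma.2 ⟨hc, (mem_zz hc).2 ⟨⟨h4, ?_⟩, rfl⟩⟩, h2⟩
    rw [only, if_pos h6] at h5
    rw [h6]
    exact h5

/-- the number of exceptions for `v` candidates -/
def exc (a s q v : ℕ) : ℕ := 3 * (Nat.sqrt (v * a) + 1) + s + v / 2 ^ q

theorem exc_mono {a s q v v' : ℕ} (h : v ≤ v') : exc a s q v ≤ exc a s q v' := by
  have h1 : Nat.sqrt (v * a) ≤ Nat.sqrt (v' * a) := Nat.sqrt_le_sqrt (Nat.mul_le_mul_right _ h)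
  have h2 : v / 2 ^ q ≤ v' / 2 ^ q := Nat.div_le_div_right h
  rw [exc, exc]
  omega

/-- **forcing a mistake** -/
theorem step {a s q N : ℕ} (hq : 1 ≤ q) {vr : (ℕ × ℕ) × ℕ → Fin n}
    (hvr : Set.InjOn vr (levels (3 * q) 1 ×ˢ range N : Finset ((ℕ × ℕ) × ℕ)))
    {β : Fin n → Fin 3} (hβ : ∀ i < 3 * q, ∀ c < N, β (vr ((i, 0), c)) = bl i) {C : Finset ℕ}
    (hC : C ⊆ range N) (h : Cube n → Bool) (hh : IsLocalTree (blockTests β) (2 ^ a) s h) :
    ∃ x b', h x ≠ b' ∧
      (C.filter fun c => tgt (fun j => vr (j, c)) 1 (3 * q) x ≠ b').card ≤ exc a s q C.card := by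
  classical
  obtain ⟨S, u, M, g, hScard, hM, hgt, hg⟩ := hh
  set m := 3 * q with hm
  set C' := C.filter fun c => ∀ j ∈ levels m 1, vr (j, c) ∉ S with hC'
  have hC'C : C' ⊆ C := Finset.filter_subset _ _
  have hC'N : C' ⊆ range N := hC'C.trans hC
  have hC'S : ∀ c ∈ C', ∀ j ∈ levels m 1, vr (j, c) ∉ S := fun c hc => (Finset.mem_filter.1 hc).2
  -- the removed candidates
  have hrem : (C.filter fun c => ¬ ∀ j ∈ levels m 1, vr (j, c) ∉ S).card ≤ s := by
    refine le_trans ?_ hScard
    have h1 : ∀ c, ∃ j, (¬ ∀ j ∈ levels m 1, vr (j, c) ∉ S) → j ∈ levels m 1 ∧ vr (j, c) ∈ S := by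
      intro c
      by_cases hc : ∀ j ∈ levels m 1, vr (j, c) ∉ S
      · exact ⟨(0, 0), fun h => absurd hc h⟩
      · have h2 := hc
        push Not at h2
        obtain ⟨j, hj, hj'⟩ := h2
        exact ⟨j, fun _ => ⟨hj, hj'⟩⟩
    choose jf hjf using h1
    refine Finset.card_le_card_of_injOn (fun c => vr (jf c, c)) (fun c hc => ?_) ?_
    · rw [Finset.mem_coe, Finset.mem_filter] at hc
      exact (hjf c hc.2).2
    · intro c hc c' hc' he
      rw [Finset.mem_coe, Finset.mem_filter] at hc hc'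
      have h2 := hvr (Finset.mem_coe.2 (Finset.mem_product.2
        ⟨(hjf c hc.2).1, hC hc.1⟩))
        (Finset.mem_coe.2 (Finset.mem_product.2
        ⟨(hjf c' hc'.2).1, hC hc'.1⟩)) he
      exact (Prod.ext_iff.1 h2).2
  -- the instances
  set ins : (Fin 3 → Fin C'.card → Finset ℕ) → Cube n := fun x => inst vr S u C' (zz m C' x)
    with hins
  have htree : IsTree (monoTest fun _ : Fin 3 => Fin C'.card → Finset ℕ) M fun x => g (ins x) := by
    refine hgt.comp ins fun T hT => ?_
    obtain ⟨gg, hg1, hg2⟩ := hT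
    refine ⟨fun p ω => gg p (ins (only p ω)), fun x y hxy hx => ?_⟩
    have h1 : ∀ (x : Fin 3 → Fin C'.card → Finset ℕ) p, gg p (ins x) = gg p (ins (only p (x p))) :=
      fun x p => hg1 p _ _ fun j hj => inst_only hβ hC'N S u x p j hj
    exact hg2 _ _ (fun p => by rw [h1 x, h1 y]; exact hxy p) hx
  set P : ℝ := ∑ i ∈ range (m + 2), raw m true i with hP
  have hP2 : (2 : ℝ) ^ q ≤ P := raw_total_ge hq true
  have hPpos : 0 < P := lt_of_lt_of_le (by positivity) hP2
  have hPb : ∀ b, ∑ i ∈ range (m + 2), raw m b i = P := by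
    intro b
    cases b
    · exact (raw_total m).symm
    · rfl
  obtain ⟨b₀, hb₀⟩ := core (κ := Fin 3) (α := Fin (m + 2)) (γ := Finset ℕ)
    (fun p i => blk p (pat m i)) (fun b i => raw m b i / P)
    (fun b i => div_nonneg (raw_nonneg m b i) hPpos.le)
    (fun b => by
      rw [← Finset.sum_div, ← Finset.sum_range (f := fun i => raw m b i), hPb,
        div_self hPpos.ne'])
    (fun p σ => by
      rw [Finset.sum_filter, Finset.sum_filter,
        ← Finset.sum_range (f := fun i => if blk p (pat m i) = σ then raw m true i / P else 0),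
        ← Finset.sum_range (f := fun i => if blk p (pat m i) = σ then raw m false i / P else 0)]
      have h1 := raw_marginal p.2 m fun T => if T = σ then 1 / P else 0
      have h2 : ∀ b i, raw m b i * (if blk p (pat m i) = σ then 1 / P else 0)
          = if blk p (pat m i) = σ then raw m b i / P else 0 := by
        intro b i
        split_ifs <;> ring
      rw [Finset.sum_congr rfl fun i _ => h2 true i, Finset.sum_congr rfl fun i _ => h2 false i]
        at h1
      exact h1)
    (fun b i => bd m b i) C'.card a hM htree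
  -- the right label
  obtain ⟨j, x, hx, hcount⟩ := hb₀ (!b₀)
  set b := !b₀ with hb
  refine ⟨ins x, b, ?_, ?_⟩
  · have h1 : h (ins x) = g (ins x) := by
      refine hg _ fun j hj => ?_
      rw [hins]
      simp only
      rw [inst, if_pos hj]
    rw [h1, hx, hb]
    simp
  have hbad : (C'.card : ℝ) * ∑ i : Fin (m + 2), raw m b i / P * bd m b i ≤ C'.card / 2 ^ q := by
    have h1 : ∑ i : Fin (m + 2), raw m b i / P * bd m b i ≤ 1 / 2 ^ q := by
      have h2 : ∑ i : Fin (m + 2), raw m b i / P * bd m b i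
          = (∑ i ∈ range (m + 2), raw m b i * bd m b i) / P := by
        rw [Finset.sum_range (f := fun i => raw m b i * bd m b i), Finset.sum_div]
        exact Finset.sum_congr rfl fun i _ => by ring
      rw [h2]
      exact div_le_div₀ zero_le_one (sum_bad m b) (by positivity) hP2
    calc (C'.card : ℝ) * ∑ i : Fin (m + 2), raw m b i / P * bd m b i
        ≤ C'.card * (1 / 2 ^ q) := mul_le_mul_of_nonneg_left h1 (by positivity)
      _ = C'.card / 2 ^ q := by ring
  have hcard : ((C'.filter fun c => tgt (fun j => vr (j, c)) 1 m (ins x) ≠ b).card : ℝ)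
      ≤ (∑ p : Fin 3, (hd (fun c => blk p (pat m (j c))) (x p) : ℝ)) + ∑ c, bd m b (j c) := by
    have h1 : (∑ p : Fin 3, (hd (fun c => blk p (pat m (j c))) (x p) : ℝ)) + ∑ c, bd m b (j c)
        = ∑ c : Fin C'.card, ((∑ p : Fin 3,
          (if blk p (pat m (j c)) = x p c then (0 : ℝ) else 1)) + bd m b (j c)) := by
      rw [Finset.sum_add_distrib, Finset.sum_comm]
      congr 1
      refine Finset.sum_congr rfl fun p _ => ?_
      rw [hd]
      push_cast
      rfl
    rw [h1]
    have h2 : ∀ c : Fin C'.card, 0 ≤ (∑ p : Fin 3,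
        (if blk p (pat m (j c)) = x p c then (0 : ℝ) else 1)) + bd m b (j c) := by
      intro c
      refine add_nonneg (Finset.sum_nonneg fun p _ => ?_) ?_
      · split_ifs <;> norm_num
      · rw [bd]
        split_ifs <;> norm_num
    have h3 : ∀ c : C', tgt (fun j => vr (j, c.1)) 1 m (ins x) ≠ b →
        1 ≤ (∑ p : Fin 3, (if blk p (pat m (j (C'.equivFin c))) = x p (C'.equivFin c)
          then (0 : ℝ) else 1)) + bd m b (j (C'.equivFin c)) := by
      intro c hc
      by_contra hlt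
      rw [not_le] at hlt
      have h4 : ∀ p : Fin 3, blk p (pat m (j (C'.equivFin c))) = x p (C'.equivFin c) := by
        intro p
        by_contra h5
        have h6 : (1 : ℝ) ≤ ∑ p : Fin 3, (if blk p (pat m (j (C'.equivFin c)))
            = x p (C'.equivFin c) then (0 : ℝ) else 1) := by
          have h7 := Finset.single_le_sum (f := fun p : Fin 3 =>
            (if blk p (pat m (j (C'.equivFin c))) = x p (C'.equivFin c) then (0 : ℝ) else 1))
            (fun p _ => by split_ifs <;> norm_num) (Finset.mem_univ p)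
          simp only [if_neg h5] at h7
          exact h7
        have h8 : 0 ≤ bd m b (j (C'.equivFin c)) := by
          rw [bd]
          split_ifs <;> norm_num
        linarith
      have h5 : bd m b (j (C'.equivFin c)) = 0 := by
        have h6 : 0 ≤ ∑ p : Fin 3, (if blk p (pat m (j (C'.equivFin c)))
            = x p (C'.equivFin c) then (0 : ℝ) else 1) :=
          Finset.sum_nonneg fun p _ => by split_ifs <;> norm_num
        rw [bd] at hlt ⊢
        split_ifs at hlt ⊢
        · rfl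
        · linarith
      have h6 : glue m x (C'.equivFin c) = pat m (j (C'.equivFin c)) := by
        ext i
        rw [glue, Finset.mem_filter, ← h4 (bl i), blk, Finset.mem_filter, Finset.mem_range]
        constructor
        · rintro ⟨_, h7, _⟩
          exact h7
        · intro h7
          exact ⟨Finset.mem_range.1 (pat_subset m _ h7), h7, rfl⟩
      have h7 : lab (zz m C' x c.1) 1 m = b := by
        rw [zz, dif_pos c.2]
        have h8 : (⟨c.1, c.2⟩ : C') = c := rfl
        rw [h8, h6]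
        rw [bd] at h5
        by_contra h9
        rw [if_neg h9] at h5
        exact one_ne_zero h5
      rw [hins] at hc
      simp only at hc
      rw [tgt_inst hvr hC'N (zz_subset m C' x) u hC'S c.2] at hc
      exact hc h7
    have h4 : ∑ c : Fin C'.card, ((∑ p : Fin 3,
        (if blk p (pat m (j c)) = x p c then (0 : ℝ) else 1)) + bd m b (j c))
        = ∑ c : C', ((∑ p : Fin 3, (if blk p (pat m (j (C'.equivFin c))) = x p (C'.equivFin c)
          then (0 : ℝ) else 1)) + bd m b (j (C'.equivFin c))) :=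
      (C'.equivFin.sum_comp fun c : Fin C'.card => (∑ p : Fin 3,
        (if blk p (pat m (j c)) = x p c then (0 : ℝ) else 1)) + bd m b (j c)).symm
    rw [h4]
    have h5 : ((C'.filter fun c => tgt (fun j => vr (j, c)) 1 m (ins x) ≠ b).card : ℝ)
        = ∑ c : C', if tgt (fun j => vr (j, c.1)) 1 m (ins x) ≠ b then (1 : ℝ) else 0 := by
      rw [Finset.sum_coe_sort C' fun c => if tgt (fun j => vr (j, c)) 1 m (ins x) ≠ b
        then (1 : ℝ) else 0]
      rw [Finset.sum_ite, Finset.sum_const_zero, add_zero, Finset.sum_const, nsmul_eq_mul,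
        mul_one]
    rw [h5]
    refine Finset.sum_le_sum fun c _ => ?_
    split_ifs with h6
    · exact h3 c h6
    · exact h2 _
  have hnat : (C'.filter fun c => tgt (fun j => vr (j, c)) 1 m (ins x) ≠ b).card
      ≤ 3 * (Nat.sqrt (C'.card * a) + 1) + C'.card / 2 ^ q := by
    set Y := (C'.filter fun c => tgt (fun j => vr (j, c)) 1 m (ins x) ≠ b).card with hY
    have h1 : (Y : ℝ) ≤ 3 * (Nat.sqrt (C'.card * a) + 1) + C'.card / 2 ^ q := by
      have h2 := hcount
      rw [Fintype.card_fin] at h2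
      push_cast at h2
      linarith
    have h2 : (Y : ℝ) * 2 ^ q ≤ (3 * (Nat.sqrt (C'.card * a) + 1)) * 2 ^ q + C'.card := by
      have h3 : (0 : ℝ) < 2 ^ q := by positivity
      calc (Y : ℝ) * 2 ^ q ≤ (3 * (Nat.sqrt (C'.card * a) + 1) + C'.card / 2 ^ q) * 2 ^ q :=
            mul_le_mul_of_nonneg_right h1 h3.le
        _ = (3 * (Nat.sqrt (C'.card * a) + 1)) * 2 ^ q + C'.card := by
          field_simp
    have h3 : Y * 2 ^ q ≤ (3 * (Nat.sqrt (C'.card * a) + 1)) * 2 ^ q + C'.card := by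
      exact_mod_cast h2
    by_cases h4 : Y ≤ 3 * (Nat.sqrt (C'.card * a) + 1)
    · exact h4.trans (Nat.le_add_right _ _)
    · have h5 : (Y - 3 * (Nat.sqrt (C'.card * a) + 1)) ≤ C'.card / 2 ^ q := by
        rw [Nat.le_div_iff_mul_le (by positivity), Nat.sub_mul]
        omega
      omega
  have h1 : (C.filter fun c => tgt (fun j => vr (j, c)) 1 m (ins x) ≠ b)
      ⊆ (C.filter fun c => ¬ ∀ j ∈ levels m 1, vr (j, c) ∉ S)
        ∪ (C'.filter fun c => tgt (fun j => vr (j, c)) 1 m (ins x) ≠ b) := by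
    intro c hc
    rw [Finset.mem_filter] at hc
    rw [Finset.mem_union, Finset.mem_filter, Finset.mem_filter]
    by_cases h2 : ∀ j ∈ levels m 1, vr (j, c) ∉ S
    · exact Or.inr ⟨Finset.mem_filter.2 ⟨hc.1, h2⟩, hc.2⟩
    · exact Or.inl ⟨hc.1, h2⟩
  have h2 := (Finset.card_le_card h1).trans (Finset.card_union_le _ _)
  have h3 := exc_mono (a := a) (s := s) (q := q) (Finset.card_le_card hC'C)
  rw [exc] at h3
  omega

end Pool.Agent.helper18.DT
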